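import Pool.Agent.Work.LipGraph.Union.Interface

/-!
# Block TS, part A: trace functionals
-/

open Matrix MeasureTheory Filter
open scoped ComplexOrder InnerProductSpace

namespace Pool.LG

open Pool.PN ODAux OFAux

universe v

set_option linter.unusedSectionVars false

namespace TSAux

variable {H : Type v} [NormedAddCommGroup H] [InnerProductSpace ℂ H] [CompleteSpace H]

section functional

variable {ι : Type} (e : HilbertBasis ι ℂ H)

include e in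
/-- the functional is unique -/
theorem uniq {T : H →L[ℂ] H} {M M' : ℝ} {τ τ' : (H →L[ℂ] H) →ₗ[ℂ] ℂ} (h : Nuc T M τ)
    (h' : Nuc T M' τ') (Z : H →L[ℂ] H) : τ Z = τ' Z := by
  have h1 := h.tr ι e 1 Z
  have h2 := h'.tr ι e 1 Z
  rw [mul_one] at h1 h2
  exact h1.unique h2

include e in
theorem swap {T T' : H →L[ℂ] H} {M M' : ℝ} {τ τ' : (H →L[ℂ] H) →ₗ[ℂ] ℂ} (h : Nuc T M τ)
    (h' : Nuc T' M' τ') (Z : H →L[ℂ] H) : τ (T' * Z) = τ' (Z * T) := by
  have h1 := h.tr ι e Z T'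
  have h2 := h'.tr ι e (Z * T) 1
  rw [one_mul] at h2
  exact h1.unique h2

include e in
theorem real {T S : H →L[ℂ] H} {M : ℝ} {τ : (H →L[ℂ] H) →ₗ[ℂ] ℂ} (h : Nuc T M τ)
    (hT : IsSelfAdjoint T) (hS : IsSelfAdjoint S) : (τ S).im = 0 := by
  have h1 := h.star
  rw [hT.star_eq] at h1
  have h2 := uniq e h h1 S
  rw [starF_apply, hS.star_eq] at h2
  have h3 := congrArg Complex.im h2
  rw [Complex.conj_im] at h3
  linarith

end functional

theorem TQ_eq (τ : (H →L[ℂ] H) →ₗ[ℂ] ℂ) (P P' Z : H →L[ℂ] H) (h : Polynomial ℝ) :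
    TQ τ P P' Z h = -TP (-τ) P' P Z h := by
  unfold TQ TP Tk
  rw [Polynomial.sum_def, Polynomial.sum_def, ← Finset.sum_neg_distrib]
  refine Finset.sum_congr rfl fun k _ => ?_
  rw [← mul_neg, ← Finset.sum_neg_distrib, ← Finset.sum_range_reflect]
  congr 1
  refine Finset.sum_congr rfl fun j hj => ?_
  rw [Finset.mem_range] at hj
  rw [LinearMap.neg_apply, neg_neg]
  congr 3
  omega

/-- the difference of polynomials with its functional -/
theorem pol_ex' {P P' : H →L[ℂ] H} {M : ℝ} {τ : (H →L[ℂ] H) →ₗ[ℂ] ℂ} (hA : Nuc (P' - P) M τ)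
    (h : Polynomial ℝ) : ∃ N σ, Nuc (ev P' h - ev P h) N σ ∧ ∀ Z, σ Z = TQ τ P P' Z h := by
  have h1 := hA.smul (-1)
  have e1 : (-1 : ℂ) • (P' - P) = P - P' := by module
  rw [e1] at h1
  obtain ⟨N, σ, h2, h3⟩ := pol_ex h1 h
  have h4 := h2.smul (-1)
  have e2 : (-1 : ℂ) • (ev P h - ev P' h) = ev P' h - ev P h := by module
  rw [e2] at h4
  refine ⟨_, _, h4, fun Z => ?_⟩
  rw [TQ_eq, LinearMap.smul_apply, h3]
  have e3 : (-1 : ℂ) • τ = -τ := by module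
  rw [e3]
  simp

theorem TQ_add (τ : (H →L[ℂ] H) →ₗ[ℂ] ℂ) (P P' Z : H →L[ℂ] H) (h g : Polynomial ℝ) :
    TQ τ P P' Z (h + g) = TQ τ P P' Z h + TQ τ P P' Z g := by
  unfold TQ
  rw [Polynomial.sum_add_index]
  · intro k; simp
  · intro k a b; push_cast; ring

theorem TQ_X (τ : (H →L[ℂ] H) →ₗ[ℂ] ℂ) (P P' Z : H →L[ℂ] H) :
    TQ τ P P' Z Polynomial.X = τ Z := by
  unfold TQ
  rw [Polynomial.sum_X_index]
  · simp
  · simp

theorem TQ_Zadd (τ : (H →L[ℂ] H) →ₗ[ℂ] ℂ) (P P' Z Z' : H →L[ℂ] H) (h : Polynomial ℝ) :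
    TQ τ P P' (Z + Z') h = TQ τ P P' Z h + TQ τ P P' Z' h := by
  unfold TQ
  simp only [Polynomial.sum_def]
  rw [← Finset.sum_add_distrib]
  refine Finset.sum_congr rfl fun k _ => ?_
  rw [← mul_add, ← Finset.sum_add_distrib]
  congr 1
  refine Finset.sum_congr rfl fun j _ => ?_
  rw [mul_add, add_mul, map_add]

theorem TQ_Zsmul (τ : (H →L[ℂ] H) →ₗ[ℂ] ℂ) (P P' Z : H →L[ℂ] H) (c : ℂ) (h : Polynomial ℝ) :
    TQ τ P P' (c • Z) h = c * TQ τ P P' Z h := by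
  unfold TQ
  simp only [Polynomial.sum_def]
  rw [Finset.mul_sum]
  refine Finset.sum_congr rfl fun k _ => ?_
  rw [mul_left_comm]
  congr 1
  rw [Finset.mul_sum]
  refine Finset.sum_congr rfl fun j _ => ?_
  rw [mul_smul_comm, smul_mul_assoc, map_smul, smul_eq_mul]

theorem TQ_zero (τ : (H →L[ℂ] H) →ₗ[ℂ] ℂ) (P P' Z : H →L[ℂ] H) : TQ τ P P' Z 0 = 0 := by
  simp [TQ]

theorem TQ_one (τ : (H →L[ℂ] H) →ₗ[ℂ] ℂ) (P P' Z : H →L[ℂ] H) : TQ τ P P' Z 1 = 0 := by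
  unfold TQ
  rw [← Polynomial.C_1, Polynomial.sum_C_index]
  · simp
  · simp

section rep

variable {Ω : Type} [TopologicalSpace Ω]

theorem up_mul (q r : C(Ω, ℝ)) : up (q * r) = up q * up r := by
  ext z; simp

theorem up_add (q r : C(Ω, ℝ)) : up (q + r) = up q + up r := by
  ext z; simp

theorem up_sub (q r : C(Ω, ℝ)) : up (q - r) = up q - up r := by
  ext z; simp

theorem up_smul (c : ℝ) (r : C(Ω, ℝ)) : up (c • r) = (c : ℂ) • up r := by
  ext z; simp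

theorem up_one : up (1 : C(Ω, ℝ)) = 1 := by
  ext z; simp

theorem star_up (q : C(Ω, ℝ)) : star (up q) = up q := by
  ext z; simp

/-- `h(d)` -/
noncomputable def pc (h : Polynomial ℝ) (d : C(Ω, ℝ)) : C(Ω, ℝ) := ⟨fun z => h.eval (d z), by fun_prop⟩

theorem ev_up (h : Polynomial ℝ) (d : C(Ω, ℝ)) : ev (up d) h = up (pc h d) := by
  ext z
  rw [ev_sum]
  simp only [pc, up_apply, ContinuousMap.coe_mk]
  rw [Polynomial.eval_eq_sum, Polynomial.sum_def, ContinuousMap.sum_apply]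
  push_cast
  refine Finset.sum_congr rfl fun k _ => ?_
  simp

variable [CompactSpace Ω] (ψ : C(Ω, ℂ) →⋆ₐ[ℂ] (H →L[ℂ] H))

theorem sa_up (q : C(Ω, ℝ)) : IsSelfAdjoint (ψ (up q)) := by
  rw [isSelfAdjoint_iff, ← map_star, star_up]

theorem norm_up_le {q : C(Ω, ℝ)} {b : ℝ} (hb : 0 ≤ b) (h : ∀ z, |q z| ≤ b) : ‖ψ (up q)‖ ≤ b := by
  refine (NonUnitalStarAlgHom.norm_apply_le ψ (up q)).trans ?_
  rw [ContinuousMap.norm_le _ hb]
  intro z
  rw [up_apply, Complex.norm_real, Real.norm_eq_abs]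
  exact h z

theorem nrm_le {q : C(Ω, ℝ)} {b : ℝ} (hb : 0 ≤ b) (h : ∀ z, |q z| ≤ b) : ‖q‖ ≤ b := by
  rw [ContinuousMap.norm_le _ hb]
  exact h

theorem ev_psi (h : Polynomial ℝ) (d : C(Ω, ℝ)) : ev (ψ (up d)) h = ψ (up (pc h d)) := by
  rw [← ev_up]
  exact (ev_map (ψ : C(Ω, ℂ) →ₐ[ℂ] (H →L[ℂ] H)) (up d) h).symm

end rep

end TSAux

end Pool.LG
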