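import Pool.Agent.Work.LipGraph.Union.LOC

/-!
# Assembly: finite unions of Lipschitz graphs
-/

open Matrix MeasureTheory Filter
open scoped ComplexOrder InnerProductSpace Pointwise

namespace Pool.LG

open Pool.PN Pool.FR Pool.FR.FAux ODAux OFAux OGAux TSAux

universe v

namespace AsmAux

variable {H : Type v} [NormedAddCommGroup H] [InnerProductSpace ℂ H] [CompleteSpace H]

theorem exists_low {n : ℕ} (f : Fin n → ℝ) (hf : ∀ k, 0 < f k) : ∃ ε > 0, ∀ k, ε ≤ f k := by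
  induction n with
  | zero => exact ⟨1, one_pos, fun k => k.elim0⟩
  | succ n ih =>
    obtain ⟨ε, h1, h2⟩ := ih (fun k => f k.castSucc) fun k => hf _
    refine ⟨min ε (f (Fin.last n)), lt_min h1 (hf _), fun k => ?_⟩
    refine Fin.lastCases ?_ (fun i => ?_) k
    · exact min_le_right _ _
    · exact (min_le_left _ _).trans (h2 i)

/-- differences of polynomials are nuclear -/
theorem Q_nuc {X Y X' Y' : H →L[ℂ] H} {M : ℝ} {τX τY : (H →L[ℂ] H) →ₗ[ℂ] ℂ}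
    (hX : Nuc (X' - X) M τX) (hY : Nuc (Y' - Y) M τY) (p : MvPolynomial (Fin 2) ℝ) :
    ∃ (N : ℝ) (τ : (H →L[ℂ] H) →ₗ[ℂ] ℂ), Nuc (∑ m ∈ p.support, ((p.coeff m : ℝ) : ℂ) •
          (X' ^ (m 0) * Y' ^ (m 1) - X ^ (m 0) * Y ^ (m 1))) N τ := by
  have hM := hX.nonneg
  have nX := norm_nonneg X
  have nY := norm_nonneg Y
  have nX' := norm_nonneg X'
  have nY' := norm_nonneg Y'
  set b : ℝ := ‖X‖ + ‖Y‖ + ‖X'‖ + ‖Y'‖ + 1 with hb
  have hb1 : 1 ≤ b := by rw [hb]; linarith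
  have hmon : ∀ {T : H →L[ℂ] H} {τ : (H →L[ℂ] H) →ₗ[ℂ] ℂ}, Nuc T M τ →
      Nuc T ((1 : ℕ) * b ^ 1 * M) τ := by
    intro T τ h
    refine h.mono ?_
    rw [Nat.cast_one, one_mul, pow_one]
    exact le_mul_of_one_le_left hM hb1
  have pX : PD b M 1 X X' := ⟨by rw [pow_one, hb]; linarith, by rw [pow_one, hb]; linarith, τX,
    hmon hX⟩
  have pY : PD b M 1 Y Y' := ⟨by rw [pow_one, hb]; linarith, by rw [pow_one, hb]; linarith, τY,
    hmon hY⟩
  have h1 : ∀ m : Fin 2 →₀ ℕ, ∃ τ : (H →L[ℂ] H) →ₗ[ℂ] ℂ,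
      Nuc (X' ^ (m 0) * Y' ^ (m 1) - X ^ (m 0) * Y ^ (m 1))
        (((m 0 + m 1 : ℕ) : ℝ) * b ^ (m 0 + m 1) * M) τ := fun m =>
    ((pX.pow hb1 hM (m 0)).mul hb1 hM (pY.pow hb1 hM (m 1))).2.2
  choose τ hτ using h1
  exact ⟨_, _, nuc_sum _ _ _ _ fun m _ => (hτ m).smul _⟩

end AsmAux

open AsmAux

/-- Theorem GraphUnions for bounded operators -/
theorem graphUnions (hLOC : Stmt_LOC.{v}) : ∃ C : ℝ, 0 ≤ C ∧
    ∀ (H : Type v) [NormedAddCommGroup H] [InnerProductSpace ℂ H] [CompleteSpace H]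
      (N₁ N₂ : H →L[ℂ] H), IsStarNormal N₁ → IsStarNormal N₂ →
      ∀ (x y : ℕ → H) (M : ℝ), (Summable fun k => ‖x k‖ * ‖y k‖) → ∑' k, ‖x k‖ * ‖y k‖ ≤ M →
      (∀ z, HasSum (fun k => inner ℂ (y k) z • x k) ((N₂ - N₁) z)) →
      ∀ (n : ℕ) (u : Fin n → ℂ) (φ : Fin n → ℝ → ℝ) (L : NNReal), (∀ k, ‖u k‖ = 1) →
      (∀ k, LipschitzWith L (φ k)) →
      (∀ z ∈ spectrum ℂ N₁, ∃ k, (u k * z).im = φ k (u k * z).re) →
      ∃ μ : Fin 4 → Measure ℂ, (∀ i, IsFiniteMeasure (μ i)) ∧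
        (∀ i, (μ i Set.univ).toReal ≤ C * n * (1 + L) * M) ∧
        ∀ f : ℂ → ℂ, ContDiff ℝ (⊤ : ℕ∞) f → HasCompactSupport f →
          HasTr (cfc f N₂ - cfc f N₁)
            ((∫ z : ℂ, fderiv ℝ f z 1 ∂(μ 0)) - (∫ z : ℂ, fderiv ℝ f z 1 ∂(μ 1)) +
              (∫ z : ℂ, fderiv ℝ f z Complex.I ∂(μ 2)) -
              (∫ z : ℂ, fderiv ℝ f z Complex.I ∂(μ 3))) := by
  obtain ⟨C, hC0, hC⟩ := hLOC
  refine ⟨C, hC0, ?_⟩
  intro H _ _ _ N₁ N₂ h₁ h₂ x y M hs hM hD n u φ L hu hφ hsp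
  have hM0 : 0 ≤ M := le_trans (tsum_nonneg fun k => by positivity) hM
  have hnuc := (nuc_series hs hD).mono hM
  by_cases hbas : ∃ (ι : Type) (_ : Countable ι) (_ : HilbertBasis ι ℂ H), True
  swap
  · refine ⟨fun _ => 0, fun i => inferInstance, fun i => by simp; positivity, ?_⟩
    intro f _ _ ι hι e
    exact (hbas ⟨ι, hι, e, trivial⟩).elim
  obtain ⟨ι, hι, bas, -⟩ := hbas
  refine main h₁ h₂ hnuc (by positivity) ?_
  have hn : ∀ (k : Fin n) {N : H →L[ℂ] H}, IsStarNormal N → IsStarNormal (u k • N) := by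
    intro k N hN
    rw [isStarNormal_iff, star_smul]
    exact ((isStarNormal_iff N).1 hN).smul_left _ |>.smul_right _
  -- local estimates
  have hloc : ∀ k : Fin n, ∃ R : ℝ, 0 ≤ R ∧ ∀ (p : MvPolynomial (Fin 2) ℝ) (K : NNReal),
      LipschitzOnWith K (fun z : ℂ => MvPolynomial.eval ![z.re, z.im] p) (Metric.closedBall 0 R) →
      ∀ δ > 0, ∃ ε > 0, ∀ q : ℂ → ℝ, Continuous q → (∀ z, |q z| ≤ 1) →
      (∀ z, ε < |(u k * z).im - φ k (u k * z).re| → q z = 0) →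
      ∀ (N : ℝ) (τ : (H →L[ℂ] H) →ₗ[ℂ] ℂ), Nuc (Q p N₂ - Q p N₁) N τ →
        ‖τ (cfc (fun z => (q z : ℂ)) N₁)‖ ≤ C * (1 + L) * K * M + δ := by
    intro k
    obtain ⟨s1, s2⟩ := ser_parts hs hM hD (hu k)
    have e1 : rp (u k • N₂) - rp (u k • N₁) = rp (u k • (N₂ - N₁)) := by
      rw [smul_sub, rp, rp, rp, map_sub]; rfl
    have e2 : ip (u k • N₂) - ip (u k • N₁) = ip (u k • (N₂ - N₁)) := by
      rw [smul_sub, ip, ip, ip, map_sub]; rfl
    rw [← e1] at s1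
    rw [← e2] at s2
    obtain ⟨R, hR0, hR⟩ := hC H ι bas (rp (u k • N₁)) (ip (u k • N₁)) (rp (u k • N₂))
      (ip (u k • N₂)) (rp_sa _) (ip_sa _) (rp_sa _) (ip_sa _) (rp_comm (hn k h₁))
      (rp_comm (hn k h₂)) M s1 s2 (φ k) L (hφ k)
    refine ⟨R, hR0, fun p K hp δ hδ => ?_⟩
    have hp' : LipschitzOnWith K (fun z : ℂ => MvPolynomial.eval ![z.re, z.im]
        (OGAux.rot (u k) p)) (Metric.closedBall 0 R) := by
      intro z hz w hw
      simp only [eval_rot]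
      have hmem : ∀ z : ℂ, z ∈ Metric.closedBall (0 : ℂ) R →
          (starRingEnd ℂ) (u k) * z ∈ Metric.closedBall (0 : ℂ) R := by
        intro z hz
        rw [mem_closedBall_zero_iff] at hz ⊢
        rw [norm_mul, RCLike.norm_conj, hu, one_mul]
        exact hz
      have h2 := hp (hmem z hz) (hmem w hw)
      refine h2.trans (le_of_eq ?_)
      congr 1
      rw [edist_dist, edist_dist, dist_eq_norm, dist_eq_norm, ← mul_sub, norm_mul,
        RCLike.norm_conj, hu, one_mul]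
    obtain ⟨ε, hε, hq⟩ := hR (OGAux.rot (u k) p) K hp' δ hδ
    refine ⟨ε, hε, fun q hqc hq1 hq2 N τ hτ => ?_⟩
    have huu : u k * (starRingEnd ℂ) (u k) = 1 := by
      rw [Complex.mul_conj', hu]; simp
    have huu' : (starRingEnd ℂ) (u k) * u k = 1 := by rw [mul_comm]; exact huu
    obtain ⟨N', τ', h3, h4⟩ := hq (fun w => q ((starRingEnd ℂ) (u k) * w)) (by fun_prop)
      (fun z => hq1 _) (fun w hw => hq2 _ (by rw [← mul_assoc, huu, one_mul]; exact hw))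
    have e3 : Q p N₂ - Q p N₁ = ∑ m ∈ (OGAux.rot (u k) p).support,
        (((OGAux.rot (u k) p).coeff m : ℝ) : ℂ) •
        (rp (u k • N₂) ^ (m 0) * ip (u k • N₂) ^ (m 1) -
          rp (u k • N₁) ^ (m 0) * ip (u k • N₁) ^ (m 1)) := by
      rw [← Q_rot h₂ (hu k), ← Q_rot h₁ (hu k)]
      unfold Q
      rw [← Finset.sum_sub_distrib]
      exact Finset.sum_congr rfl fun m _ => (smul_sub _ _ _).symm
    rw [← e3] at h3
    have e4 := NN_rp (u k • N₁)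
    unfold NN at e4
    rw [e4] at h4
    have e5 : cfc (fun w => ((q ((starRingEnd ℂ) (u k) * w) : ℝ) : ℂ)) (u k • N₁) =
        cfc (fun z => (q z : ℂ)) N₁ := by
      rw [cfc_comp_const_mul ((starRingEnd ℂ) (u k)) (fun z : ℂ => (q z : ℂ)) (u k • N₁)
        (by fun_prop) (hn k h₁), smul_smul, huu', one_smul]
    rw [e5] at h4
    rw [uniq bas hτ h3]
    exact h4
  choose R hR0 hR using hloc
  -- the polynomial bound
  refine ⟨∑ k, R k, Finset.sum_nonneg fun k _ => hR0 k, fun p K hp δ hδ => ?_⟩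
  have hex : ∃ (N : ℝ) (τ : (H →L[ℂ] H) →ₗ[ℂ] ℂ), Nuc (Q p N₂ - Q p N₁) N τ := by
    obtain ⟨τ0, hτ0⟩ : ∃ τ0, Nuc (N₂ - N₁) M τ0 := ⟨_, hnuc⟩
    have h1' : Nuc (NN (rp N₂) (ip N₂) - NN (rp N₁) (ip N₁)) M τ0 := by
      rw [NN_rp, NN_rp]; exact hτ0
    obtain ⟨⟨τA, hA⟩, ⟨τB, hB⟩⟩ := parts (rp_sa N₁) (ip_sa N₁) (rp_sa N₂) (ip_sa N₂) h1'
    obtain ⟨N, τ, h⟩ := Q_nuc hA hB p
    refine ⟨N, τ, ?_⟩
    have e1 : Q p N₂ - Q p N₁ = ∑ m ∈ p.support, ((p.coeff m : ℝ) : ℂ) •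
        (rp N₂ ^ (m 0) * ip N₂ ^ (m 1) - rp N₁ ^ (m 0) * ip N₁ ^ (m 1)) := by
      unfold Q
      rw [← Finset.sum_sub_distrib]
      exact Finset.sum_congr rfl fun m _ => (smul_sub _ _ _).symm
    rw [e1]
    exact h
  obtain ⟨N, τ, hτ⟩ := hex
  refine ⟨N, τ, hτ, ?_⟩
  have hδn : 0 < δ / (n + 1) := by positivity
  have hk : ∀ k : Fin n, ∃ ε > 0, ∀ q : ℂ → ℝ, Continuous q → (∀ z, |q z| ≤ 1) →
      (∀ z, ε < |(u k * z).im - φ k (u k * z).re| → q z = 0) →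
      ∀ (N : ℝ) (τ : (H →L[ℂ] H) →ₗ[ℂ] ℂ), Nuc (Q p N₂ - Q p N₁) N τ →
        ‖τ (cfc (fun z => (q z : ℂ)) N₁)‖ ≤ C * (1 + L) * K * M + δ / (n + 1) := by
    intro k
    refine hR k p K (hp.mono (Metric.closedBall_subset_closedBall ?_)) _ hδn
    exact Finset.single_le_sum (fun k _ => hR0 k) (Finset.mem_univ k)
  choose ε₁ hε₁ hq₁ using hk
  obtain ⟨ε, hε, hεle⟩ := exists_low ε₁ hε₁
  -- the partition of unity
  have hφc : ∀ k, Continuous (φ k) := fun k => (hφ k).continuous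
  set g : Fin n → ℂ → ℝ := fun k z => max (ε - |(u k * z).im - φ k (u k * z).re|) 0 with hg
  have hgc : ∀ k, Continuous (g k) := by
    intro k
    have := hφc k
    simp only [hg]
    fun_prop
  have hg0 : ∀ k z, 0 ≤ g k z := fun k z => le_max_right _ _
  set G : ℂ → ℝ := fun z => max (∑ k, g k z) ε with hG
  have hGc : Continuous G := by
    simp only [hG]
    exact (continuous_finsetSum _ fun k _ => hgc k).max continuous_const
  have hGpos : ∀ z, 0 < G z := fun z => lt_of_lt_of_le hε (le_max_right _ _)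
  set q : Fin n → ℂ → ℝ := fun k z => g k z / G z with hq
  have hqc : ∀ k, Continuous (q k) := fun k => (hgc k).div hGc fun z => (hGpos z).ne'
  have hq1 : ∀ k z, |q k z| ≤ 1 := by
    intro k z
    simp only [hq]
    rw [abs_of_nonneg (div_nonneg (hg0 k z) (hGpos z).le), div_le_one (hGpos z)]
    refine le_trans ?_ (le_max_left _ _)
    exact Finset.single_le_sum (fun k _ => hg0 k z) (Finset.mem_univ k)
  have hq2 : ∀ k z, ε₁ k < |(u k * z).im - φ k (u k * z).re| → q k z = 0 := by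
    intro k z hz
    simp only [hq, hg]
    have h1 : ε - |(u k * z).im - φ k (u k * z).re| ≤ 0 := by linarith [hεle k]
    rw [max_eq_right h1, zero_div]
  have hsum : (1 : H →L[ℂ] H) = ∑ k, cfc (fun z => (q k z : ℂ)) N₁ := by
    rw [← cfc_sum (R := ℂ) (fun k z => (q k z : ℂ)) N₁ Finset.univ (fun k _ =>
      (Complex.continuous_ofReal.comp (hqc k)).continuousOn), ← cfc_one ℂ N₁]
    refine cfc_congr fun z hz => ?_
    simp only [Pi.one_apply, Finset.sum_apply]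
    rw [← Complex.ofReal_sum]
    obtain ⟨k, hk⟩ := hsp z hz
    have h1 : g k z = ε := by
      simp only [hg]
      rw [hk, sub_self, abs_zero, sub_zero, max_eq_left hε.le]
    have h2 : ε ≤ ∑ k, g k z := by
      rw [← h1]
      exact Finset.single_le_sum (fun k _ => hg0 k z) (Finset.mem_univ k)
    have h3 : G z = ∑ k, g k z := by simp only [hG]; exact max_eq_left h2
    have h4 : ∑ k, q k z = 1 := by
      simp only [hq]
      rw [← Finset.sum_div, h3]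
      exact div_self (by linarith)
    rw [h4, Complex.ofReal_one]
  rw [hsum, map_sum]
  refine (norm_sum_le _ _).trans ?_
  refine (Finset.sum_le_sum fun k _ => hq₁ k (q k) (hqc k) (hq1 k) (hq2 k) N τ hτ).trans ?_
  rw [Finset.sum_const, Finset.card_univ, Fintype.card_fin, nsmul_eq_mul]
  have h5 : (n : ℝ) * (δ / (n + 1)) ≤ δ := by
    rw [mul_div_assoc', div_le_iff₀ (by positivity)]
    nlinarith
  calc (n : ℝ) * (C * (1 + L) * K * M + δ / (n + 1)) =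
        C * n * (1 + L) * M * K + n * (δ / (n + 1)) := by ring
    _ ≤ C * n * (1 + L) * M * K + δ := by gcongr

end Pool.LG
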