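import Pool.Agent.Work.LipGraph.Union.Interface

/-!
# Block BD: Bregman domination (Klein's inequality with weight)
-/

open MeasureTheory Filter Polynomial
open scoped ComplexOrder InnerProductSpace unitInterval

namespace Pool.LG

open Pool.PN

universe v

set_option linter.unusedSectionVars false

namespace BDAux

/-! ## The kernel -/

/-- the kernel of the second difference of `t ^ n` -/
noncomputable def km (n : ℕ) (x t : ℝ) : ℝ :=
  ∑ j ∈ Finset.range n, ∑ i ∈ Finset.range j, x ^ (n - 2 - i) * t ^ i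

theorem km_eq (n : ℕ) (x t : ℝ) :
    (t - x) ^ 2 * km n x t = t ^ n - x ^ n - n * x ^ (n - 1) * (t - x) := by
  have h1 : ∀ j ∈ Finset.range n, (t - x) * ∑ i ∈ Finset.range j, x ^ (n - 2 - i) * t ^ i =
      t ^ j * x ^ (n - 1 - j) - x ^ (n - 1) := by
    intro j hj
    rw [Finset.mem_range] at hj
    have h2 := Finset.sum_range_sub (fun i => t ^ i * x ^ (n - 1 - i)) j
    simp only [pow_zero, one_mul, Nat.sub_zero] at h2
    rw [← h2, Finset.mul_sum]
    refine Finset.sum_congr rfl fun i hi => ?_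
    rw [Finset.mem_range] at hi
    have e1 : n - 1 - i = (n - 2 - i) + 1 := by omega
    have e2 : n - 1 - (i + 1) = n - 2 - i := by omega
    rw [e1, e2, pow_succ, pow_succ]
    ring
  have h3 : (t - x) * ∑ j ∈ Finset.range n, t ^ j * x ^ (n - 1 - j) = t ^ n - x ^ n := by
    rw [mul_comm]
    exact (Commute.all t x).geom_sum₂_mul n
  calc (t - x) ^ 2 * km n x t = (t - x) * ∑ j ∈ Finset.range n,
        (t - x) * ∑ i ∈ Finset.range j, x ^ (n - 2 - i) * t ^ i := by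
        rw [km, ← Finset.mul_sum]; ring
    _ = (t - x) * ∑ j ∈ Finset.range n, (t ^ j * x ^ (n - 1 - j) - x ^ (n - 1)) := by
        rw [Finset.sum_congr rfl h1]
    _ = _ := by
        rw [Finset.sum_sub_distrib, mul_sub, h3, Finset.sum_const, Finset.card_range, nsmul_eq_mul]
        ring

/-- the kernel of a polynomial -/
noncomputable def kp (h : Polynomial ℝ) (N : ℕ) (x t : ℝ) : ℝ :=
  ∑ n ∈ Finset.range N, h.coeff n * km n x t

theorem kp_eq (h : Polynomial ℝ) {N : ℕ} (hN : h.natDegree < N) (x t : ℝ) :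
    (t - x) ^ 2 * kp h N x t = h.eval t - h.eval x - h.derivative.eval x * (t - x) := by
  have e1 : h.eval t = ∑ n ∈ Finset.range N, h.coeff n * t ^ n := by
    rw [Polynomial.eval_eq_sum, Polynomial.sum_over_range' _ (fun k => by simp) N hN]
  have e2 : h.eval x = ∑ n ∈ Finset.range N, h.coeff n * x ^ n := by
    rw [Polynomial.eval_eq_sum, Polynomial.sum_over_range' _ (fun k => by simp) N hN]
  have e3 : h.derivative.eval x = ∑ n ∈ Finset.range N, h.coeff n * (n * x ^ (n - 1)) := by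
    rw [Polynomial.derivative_eval, Polynomial.sum_over_range' _ (fun k => by simp) N hN]
    exact Finset.sum_congr rfl fun n _ => by ring
  rw [e1, e2, e3, kp, Finset.mul_sum, Finset.sum_mul, ← Finset.sum_sub_distrib,
    ← Finset.sum_sub_distrib]
  refine Finset.sum_congr rfl fun n _ => ?_
  have := km_eq n x t
  linear_combination h.coeff n * this

theorem kp_cont (h : Polynomial ℝ) (N : ℕ) (x : ℝ) : Continuous fun t => kp h N x t := by
  unfold kp km
  fun_prop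

/-- above the tangent -/
theorem tangent (h : Polynomial ℝ)
    (hh : ∀ t : ℝ, |t| ≤ 1 → 0 ≤ h.derivative.derivative.eval t) {x t : ℝ} (hx : |x| ≤ 1)
    (ht : |t| ≤ 1) : 0 ≤ h.eval t - h.eval x - h.derivative.eval x * (t - x) := by
  have hmono : MonotoneOn (fun s => h.derivative.eval s) (Set.Icc (-1) 1) := by
    apply monotoneOn_of_deriv_nonneg (convex_Icc _ _)
    · exact h.derivative.continuous.continuousOn
    · exact h.derivative.differentiable.differentiableOn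
    · intro s hs
      rw [Polynomial.deriv]
      have hs' := interior_subset hs
      exact hh s (abs_le.2 hs')
  rcases lt_trichotomy x t with hlt | heq | hgt
  · obtain ⟨c, hc, hc'⟩ := exists_hasDerivAt_eq_slope (fun s => h.eval s)
      (fun s => h.derivative.eval s) hlt h.continuous.continuousOn
      (fun s _ => h.hasDerivAt s)
    have h1 : h.derivative.eval x ≤ h.derivative.eval c :=
      hmono (abs_le.1 hx) ⟨(abs_le.1 hx).1.trans hc.1.le, hc.2.le.trans (abs_le.1 ht).2⟩ hc.1.le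
    have h2 : h.eval t - h.eval x = h.derivative.eval c * (t - x) := by
      rw [hc']; field_simp [sub_ne_zero.2 hlt.ne']
    rw [h2]
    nlinarith [sub_pos.2 hlt]
  · rw [heq]; simp
  · obtain ⟨c, hc, hc'⟩ := exists_hasDerivAt_eq_slope (fun s => h.eval s)
      (fun s => h.derivative.eval s) hgt h.continuous.continuousOn
      (fun s _ => h.hasDerivAt s)
    have h1 : h.derivative.eval c ≤ h.derivative.eval x :=
      hmono ⟨(abs_le.1 ht).1.trans hc.1.le, hc.2.le.trans (abs_le.1 hx).2⟩ (abs_le.1 hx) hc.2.le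
    have h2 : h.eval x - h.eval t = h.derivative.eval c * (x - t) := by
      rw [hc']; field_simp [sub_ne_zero.2 hgt.ne']
    nlinarith [sub_pos.2 hgt]

/-- the kernel is nonnegative if `h'' ≥ 0` -/
theorem kp_nonneg (h : Polynomial ℝ) {N : ℕ} (hN : h.natDegree < N)
    (hh : ∀ t : ℝ, |t| ≤ 1 → 0 ≤ h.derivative.derivative.eval t) {x t : ℝ} (hx : |x| ≤ 1)
    (ht : |t| ≤ 1) : 0 ≤ kp h N x t := by
  have key : ∀ s : ℝ, |s| ≤ 1 → s ≠ x → 0 ≤ kp h N x s := by
    intro s hs hne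
    have h1 := tangent h hh hx hs
    rw [← kp_eq h hN] at h1
    have h2 : 0 < (s - x) ^ 2 := by
      have := sub_ne_zero.2 hne
      positivity
    exact nonneg_of_mul_nonneg_right h1 h2
  by_cases hne : t = x
  · subst hne
    -- approach x
    set y : ℝ := if t ≤ 0 then 1 else -1 with hy
    have hy1 : |y| ≤ 1 := by rw [hy]; split_ifs <;> simp
    have hyt : y ≠ t := by
      rw [hy]; split_ifs with h0
      · intro h1; linarith
      · intro h1; linarith
    have hlim : Tendsto (fun n : ℕ => t + (1 / ((n : ℝ) + 1)) * (y - t)) atTop (nhds (t + 0 * (y - t))) :=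
      tendsto_const_nhds.add (tendsto_one_div_add_atTop_nhds_zero_nat.mul_const _)
    rw [zero_mul, add_zero] at hlim
    have h3 := ((kp_cont h N t).tendsto t).comp hlim
    refine ge_of_tendsto' h3 fun n => ?_
    have hn : (0 : ℝ) < 1 / ((n : ℝ) + 1) := by positivity
    have hn1 : 1 / ((n : ℝ) + 1) ≤ 1 := by
      rw [div_le_one (by positivity)]
      have : (0 : ℝ) ≤ n := Nat.cast_nonneg _
      linarith
    refine key _ ?_ ?_
    · have e : t + (1 / ((n : ℝ) + 1)) * (y - t) =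
          (1 - 1 / ((n : ℝ) + 1)) * t + (1 / ((n : ℝ) + 1)) * y := by ring
      refine (le_of_eq (congrArg abs e)).trans ?_
      refine (abs_add_le _ _).trans ?_
      rw [abs_mul, abs_mul, abs_of_nonneg (by linarith : 0 ≤ 1 - 1 / ((n : ℝ) + 1)), abs_of_pos hn]
      nlinarith
    · intro h4
      have h5 : (1 / ((n : ℝ) + 1)) * (y - t) = 0 := by linarith
      rcases mul_eq_zero.1 h5 with h6 | h6
      · exact hn.ne' h6
      · exact hyt (sub_eq_zero.1 h6)
  · exact key t ht hne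

theorem kp_abs (w j : Polynomial ℝ) {N : ℕ} (hw : w.natDegree < N) (hj : j.natDegree < N)
    (hh : ∀ t : ℝ, |t| ≤ 1 →
      |w.derivative.derivative.eval t| ≤ j.derivative.derivative.eval t) {x t : ℝ} (hx : |x| ≤ 1)
    (ht : |t| ≤ 1) : |kp w N x t| ≤ kp j N x t := by
  have h1 := kp_nonneg (j + w) (N := N) (lt_of_le_of_lt (Polynomial.natDegree_add_le _ _)
    (max_lt hj hw)) (fun s hs => by
      rw [Polynomial.derivative_add, Polynomial.derivative_add, Polynomial.eval_add]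
      have := abs_le.1 (hh s hs)
      linarith [this.1]) hx ht
  have h2 := kp_nonneg (j - w) (N := N) (lt_of_le_of_lt (Polynomial.natDegree_sub_le _ _)
    (max_lt hj hw)) (fun s hs => by
      rw [Polynomial.derivative_sub, Polynomial.derivative_sub, Polynomial.eval_sub]
      have := abs_le.1 (hh s hs)
      linarith [this.2]) hx ht
  have e1 : kp (j + w) N x t = kp j N x t + kp w N x t := by
    unfold kp
    rw [← Finset.sum_add_distrib]
    exact Finset.sum_congr rfl fun n _ => by rw [Polynomial.coeff_add]; ring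
  have e2 : kp (j - w) N x t = kp j N x t - kp w N x t := by
    unfold kp
    rw [← Finset.sum_sub_distrib]
    exact Finset.sum_congr rfl fun n _ => by rw [Polynomial.coeff_sub]; ring
  rw [e1] at h1
  rw [e2] at h2
  rw [abs_le]
  constructor <;> linarith

/-! ## The form -/

section form

variable {H : Type v} [NormedAddCommGroup H] [InnerProductSpace ℂ H] [CompleteSpace H]
  {Ω Ω' : Type} [TopologicalSpace Ω] [CompactSpace Ω] [TopologicalSpace Ω'] [CompactSpace Ω']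

theorem up_add (f g : C(Ω, ℝ)) : up (f + g) = up f + up g := by
  ext z; simp

theorem up_sub (f g : C(Ω, ℝ)) : up (f - g) = up f - up g := by
  ext z; simp

theorem up_mul (f g : C(Ω, ℝ)) : up (f * g) = up f * up g := by
  ext z; simp

theorem up_one : up (1 : C(Ω, ℝ)) = 1 := by
  ext z; simp

theorem up_pow (f : C(Ω, ℝ)) (n : ℕ) : up (f ^ n) = up f ^ n := by
  ext z; simp

theorem up_smul (c : ℝ) (f : C(Ω, ℝ)) : up (c • f) = (c : ℂ) • up f := by
  ext z; simp

theorem up_zero : up (0 : C(Ω, ℝ)) = 0 := by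
  ext z; simp

theorem star_up (f : C(Ω, ℝ)) : star (up f) = up f := by
  ext z; simp

theorem norm_up (f : C(Ω, ℝ)) : ‖up f‖ ≤ ‖f‖ := by
  rw [ContinuousMap.norm_le _ (norm_nonneg f)]
  intro z
  rw [up_apply, Complex.norm_real]
  exact f.norm_coe_le_norm z

/-- the form `tr (G V F V)` -/
noncomputable def Ph (ψ : C(Ω, ℂ) →⋆ₐ[ℂ] (H →L[ℂ] H)) (ψ' : C(Ω', ℂ) →⋆ₐ[ℂ] (H →L[ℂ] H))
    (V : H →L[ℂ] H) (τ : (H →L[ℂ] H) →ₗ[ℂ] ℂ) (f : C(Ω, ℝ)) (g : C(Ω', ℝ)) : ℂ :=
  τ (ψ' (up g) * V * ψ (up f))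

variable (ψ : C(Ω, ℂ) →⋆ₐ[ℂ] (H →L[ℂ] H)) (ψ' : C(Ω', ℂ) →⋆ₐ[ℂ] (H →L[ℂ] H))
  {V : H →L[ℂ] H} {M : ℝ} {τ : (H →L[ℂ] H) →ₗ[ℂ] ℂ}

theorem Ph_add_left (f f' : C(Ω, ℝ)) (g : C(Ω', ℝ)) :
    Ph ψ ψ' V τ (f + f') g = Ph ψ ψ' V τ f g + Ph ψ ψ' V τ f' g := by
  unfold Ph
  rw [up_add, map_add, mul_add, map_add]

theorem Ph_sub_left (f f' : C(Ω, ℝ)) (g : C(Ω', ℝ)) :
    Ph ψ ψ' V τ (f - f') g = Ph ψ ψ' V τ f g - Ph ψ ψ' V τ f' g := by
  unfold Ph
  rw [up_sub, map_sub, mul_sub, map_sub]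

theorem Ph_smul_left (c : ℝ) (f : C(Ω, ℝ)) (g : C(Ω', ℝ)) :
    Ph ψ ψ' V τ (c • f) g = c * Ph ψ ψ' V τ f g := by
  unfold Ph
  rw [up_smul, map_smul, mul_smul_comm, map_smul, smul_eq_mul]

theorem Ph_add_right (f : C(Ω, ℝ)) (g g' : C(Ω', ℝ)) :
    Ph ψ ψ' V τ f (g + g') = Ph ψ ψ' V τ f g + Ph ψ ψ' V τ f g' := by
  unfold Ph
  rw [up_add, map_add, add_mul, add_mul, map_add]

theorem Ph_sub_right (f : C(Ω, ℝ)) (g g' : C(Ω', ℝ)) :
    Ph ψ ψ' V τ f (g - g') = Ph ψ ψ' V τ f g - Ph ψ ψ' V τ f g' := by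
  unfold Ph
  rw [up_sub, map_sub, sub_mul, sub_mul, map_sub]

theorem Ph_smul_right (c : ℝ) (f : C(Ω, ℝ)) (g : C(Ω', ℝ)) :
    Ph ψ ψ' V τ f (c • g) = c * Ph ψ ψ' V τ f g := by
  unfold Ph
  rw [up_smul, map_smul, smul_mul_assoc, smul_mul_assoc, map_smul, smul_eq_mul]

theorem Ph_zero_left (g : C(Ω', ℝ)) : Ph ψ ψ' V τ 0 g = 0 := by
  unfold Ph
  rw [up_zero, map_zero, mul_zero, map_zero]

theorem Ph_zero_right (f : C(Ω, ℝ)) : Ph ψ ψ' V τ f 0 = 0 := by
  unfold Ph
  rw [up_zero, map_zero, zero_mul, zero_mul, map_zero]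

theorem Ph_sum_left {κ : Type*} (s : Finset κ) (F : κ → C(Ω, ℝ)) (g : C(Ω', ℝ)) :
    Ph ψ ψ' V τ (∑ k ∈ s, F k) g = ∑ k ∈ s, Ph ψ ψ' V τ (F k) g := by
  classical
  induction s using Finset.induction_on with
  | empty => simp [Ph_zero_left]
  | insert a s ha ih => rw [Finset.sum_insert ha, Finset.sum_insert ha, Ph_add_left, ih]

theorem Ph_sum_right {κ : Type*} (s : Finset κ) (f : C(Ω, ℝ)) (G : κ → C(Ω', ℝ)) :
    Ph ψ ψ' V τ f (∑ k ∈ s, G k) = ∑ k ∈ s, Ph ψ ψ' V τ f (G k) := by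
  classical
  induction s using Finset.induction_on with
  | empty => simp [Ph_zero_right]
  | insert a s ha ih => rw [Finset.sum_insert ha, Finset.sum_insert ha, Ph_add_right, ih]

theorem Ph_bound (hV : Nuc V M τ) (g : C(Ω', ℝ)) :
    ∃ C : ℝ, ∀ f : C(Ω, ℝ), ‖Ph ψ ψ' V τ f g‖ ≤ C * ‖f‖ := by
  refine ⟨M * (‖ψ' (up g) * V‖), fun f => ?_⟩
  unfold Ph
  refine (hV.bd _).trans ?_
  have h0 := hV.nonneg
  have h1 : ‖ψ (up f)‖ ≤ ‖f‖ := (NonUnitalStarAlgHom.norm_apply_le ψ (up f)).trans (norm_up f)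
  calc M * ‖ψ' (up g) * V * ψ (up f)‖ ≤ M * (‖ψ' (up g) * V‖ * ‖f‖) := by
        gcongr
        refine (norm_mul_le _ _).trans ?_
        gcongr
    _ = _ := by ring

theorem Ph_tendsto (hV : Nuc V M τ) (g : C(Ω', ℝ)) {F : ℕ → C(Ω, ℝ)} {f : C(Ω, ℝ)}
    (hF : Tendsto F atTop (nhds f)) :
    Tendsto (fun n => Ph ψ ψ' V τ (F n) g) atTop (nhds (Ph ψ ψ' V τ f g)) := by
  obtain ⟨C, hC⟩ := Ph_bound ψ ψ' hV g
  rw [tendsto_iff_norm_sub_tendsto_zero] at hF ⊢
  have h1 := hF.const_mul C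
  rw [mul_zero] at h1
  refine squeeze_zero (fun n => norm_nonneg _) (fun n => ?_) h1
  rw [← Ph_sub_left]
  exact hC _

/-- positivity for squares -/
theorem Ph_sq (hV : Nuc V M τ) (hVs : star V = V) {ι : Type} (e : HilbertBasis ι ℂ H)
    (a : C(Ω, ℝ)) (b : C(Ω', ℝ)) : 0 ≤ Ph ψ ψ' V τ (a * a) (b * b) := by
  have ha : star (ψ (up a)) = ψ (up a) := by rw [← map_star, star_up]
  have hb : star (ψ' (up b)) = ψ' (up b) := by rw [← map_star, star_up]
  have h1 := hV.tr ι e (ψ' (up b) * V * ψ (up a) * ψ (up a)) (ψ' (up b))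
  have e1 : ψ' (up b) * (ψ' (up b) * V * ψ (up a) * ψ (up a)) =
      ψ' (up (b * b)) * V * ψ (up (a * a)) := by
    rw [up_mul, up_mul, map_mul, map_mul]
    noncomm_ring
  rw [e1] at h1
  have h2 : ∀ i, 0 ≤ inner ℂ (e i) ((ψ' (up b) * V * ψ (up a) * ψ (up a)) (V (ψ' (up b) (e i)))) := by
    intro i
    have e2 : (ψ' (up b) * V * ψ (up a) * ψ (up a)) (V (ψ' (up b) (e i))) =
        (star (ψ (up a) * V * ψ' (up b))) ((ψ (up a) * V * ψ' (up b)) (e i)) := by
      rw [star_mul, star_mul, ha, hb, hVs]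
      rfl
    rw [e2, ContinuousLinearMap.star_eq_adjoint, ContinuousLinearMap.adjoint_inner_right,
      inner_self_eq_norm_sq_to_K]
    have h3 : (0 : ℝ) ≤ ‖(ψ (up a) * V * ψ' (up b)) (e i)‖ ^ 2 := by positivity
    have h4 := Complex.zero_le_real.2 h3
    rw [Complex.ofReal_pow] at h4
    exact h4
  exact h1.nonneg h2

theorem Ph_nonneg (hV : Nuc V M τ) (hVs : star V = V) {ι : Type} (e : HilbertBasis ι ℂ H)
    {f : C(Ω, ℝ)} {g : C(Ω', ℝ)} (hf : ∀ z, 0 ≤ f z) (hg : ∀ z, 0 ≤ g z) :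
    0 ≤ Ph ψ ψ' V τ f g := by
  have e1 : f = (⟨fun z => Real.sqrt (f z), by fun_prop⟩ : C(Ω, ℝ)) *
      ⟨fun z => Real.sqrt (f z), by fun_prop⟩ := by
    ext z
    simp [Real.mul_self_sqrt (hf z)]
  have e2 : g = (⟨fun z => Real.sqrt (g z), by fun_prop⟩ : C(Ω', ℝ)) *
      ⟨fun z => Real.sqrt (g z), by fun_prop⟩ := by
    ext z
    simp [Real.mul_self_sqrt (hg z)]
  rw [e1, e2]
  exact Ph_sq ψ ψ' hV hVs e _ _

theorem Ph_im (hV : Nuc V M τ) (hVs : star V = V) {ι : Type} (e : HilbertBasis ι ℂ H)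
    (f : C(Ω, ℝ)) (g : C(Ω', ℝ)) : (Ph ψ ψ' V τ f g).im = 0 := by
  have hpos : ∀ (f : C(Ω, ℝ)) (g : C(Ω', ℝ)), (∀ z, 0 ≤ f z) → (∀ z, 0 ≤ g z) →
      (Ph ψ ψ' V τ f g).im = 0 := fun f g hf hg =>
    ((Complex.nonneg_iff.1 (Ph_nonneg ψ ψ' hV hVs e hf hg)).2).symm
  have hcf : ∀ z, 0 ≤ (ContinuousMap.const Ω ‖f‖ - f) z := fun z => by
    have := (abs_le.1 (f.norm_coe_le_norm z)).2
    simp only [ContinuousMap.sub_apply, ContinuousMap.const_apply]
    linarith
  have hcg : ∀ z, 0 ≤ (ContinuousMap.const Ω' ‖g‖ - g) z := fun z => by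
    have := (abs_le.1 (g.norm_coe_le_norm z)).2
    simp only [ContinuousMap.sub_apply, ContinuousMap.const_apply]
    linarith
  have hf' : ∀ z, 0 ≤ (ContinuousMap.const Ω ‖f‖) z := fun z => by simp
  have hg' : ∀ z, 0 ≤ (ContinuousMap.const Ω' ‖g‖) z := fun z => by simp
  have h1 := hpos _ _ hcf hcg
  have h2 := hpos _ _ hcf hg'
  have h3 := hpos _ _ hf' hcg
  have h4 := hpos _ _ hf' hg'
  rw [Ph_sub_left, Ph_sub_right, Ph_sub_right] at h1
  rw [Ph_sub_left] at h2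
  rw [Ph_sub_right] at h3
  simp only [Complex.sub_im] at h1 h2 h3 h4
  linarith

/-- positivity for degenerate kernels -/
theorem Ph_pos (hV : Nuc V M τ) (hVs : star V = V) {ι : Type} (e : HilbertBasis ι ℂ H)
    (d : C(Ω, ℝ)) (hd : ∀ z, |d z| ≤ 1) (q : C(Ω, ℝ)) (hq : ∀ z, 0 ≤ q z) {κ : Type*}
    (s : Finset κ) (a : κ → ℕ) (g : κ → C(Ω', ℝ))
    (hpos : ∀ x : ℝ, |x| ≤ 1 → ∀ y, 0 ≤ ∑ l ∈ s, x ^ a l * g l y) :
    0 ≤ ∑ l ∈ s, Ph ψ ψ' V τ (q * d ^ a l) (g l) := by
  -- the point of the unit interval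
  let u : C(Ω, I) := ⟨fun z => ⟨(1 + d z) / 2, by
    have := abs_le.1 (hd z)
    constructor <;> linarith⟩, by fun_prop⟩
  let X : κ → C(I, ℝ) := fun l => ⟨fun t => (2 * (t : ℝ) - 1) ^ a l, by fun_prop⟩
  have hX : ∀ l, q * (X l).comp u = q * d ^ a l := by
    intro l
    ext z
    simp only [ContinuousMap.mul_apply, ContinuousMap.comp_apply, ContinuousMap.pow_apply, X, u,
      ContinuousMap.coe_mk]
    congr 2
    ring
  have hlim : ∀ l, Tendsto (fun n : ℕ => Ph ψ ψ' V τ (q * (bernsteinApproximation n (X l)).comp u)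
      (g l)) atTop (nhds (Ph ψ ψ' V τ (q * d ^ a l) (g l))) := by
    intro l
    apply Ph_tendsto ψ ψ' hV
    rw [← hX l]
    refine tendsto_const_nhds.mul ?_
    exact ((ContinuousMap.continuous_precomp u).tendsto (X l)).comp
      (bernsteinApproximation_uniform (X l))
  refine ge_of_tendsto' (tendsto_finsetSum s fun l _ => hlim l) fun n => ?_
  have h1 : ∀ l, q * (bernsteinApproximation n (X l)).comp u =
      ∑ k : Fin (n + 1), (X l (bernstein.z k)) • (q * (bernstein n k).comp u) := by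
    intro l
    ext z
    simp only [ContinuousMap.mul_apply, ContinuousMap.comp_apply, bernsteinApproximation.apply,
      ContinuousMap.sum_apply, ContinuousMap.smul_apply, smul_eq_mul, Finset.mul_sum]
    refine Finset.sum_congr rfl fun k _ => ?_
    ring
  have h2 : ∑ l ∈ s, Ph ψ ψ' V τ (q * (bernsteinApproximation n (X l)).comp u) (g l) =
      ∑ k : Fin (n + 1), Ph ψ ψ' V τ (q * (bernstein n k).comp u)
        (∑ l ∈ s, (X l (bernstein.z k)) • g l) := by
    rw [Finset.sum_congr rfl fun l _ => by rw [h1 l, Ph_sum_left], Finset.sum_comm]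
    refine Finset.sum_congr rfl fun k _ => ?_
    rw [Ph_sum_right]
    refine Finset.sum_congr rfl fun l _ => ?_
    rw [Ph_smul_left, Ph_smul_right]
  rw [h2]
  refine Finset.sum_nonneg fun k _ => Ph_nonneg ψ ψ' hV hVs e ?_ ?_
  · intro z
    exact mul_nonneg (hq z) bernstein_nonneg
  · intro y
    have h3 := hpos (2 * ((bernstein.z k : I) : ℝ) - 1) (by
      have h4 := (bernstein.z k : I).2
      rw [abs_le]
      constructor <;> linarith [h4.1, h4.2]) y
    simpa [ContinuousMap.sum_apply, X] using h3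

/-- the triple sum -/
noncomputable def Dk (d q : C(Ω, ℝ)) (d' κ : C(Ω', ℝ)) (V : H →L[ℂ] H)
    (τ : (H →L[ℂ] H) →ₗ[ℂ] ℂ) (h : Polynomial ℝ) (N : ℕ) : ℂ :=
  ∑ n ∈ Finset.range N, (h.coeff n : ℂ) * ∑ j ∈ Finset.range n, ∑ i ∈ Finset.range j,
    Ph ψ ψ' V τ (q * d ^ (n - 2 - i)) (κ * d' ^ i)

theorem mono_term (d q : C(Ω, ℝ)) (d' κ : C(Ω', ℝ)) (τ : (H →L[ℂ] H) →ₗ[ℂ] ℂ) (n : ℕ) :
    ∑ j ∈ Finset.range n, τ (ψ' (up d') ^ j * (ψ' (up κ) * ψ (up q)) * ψ (up d) ^ (n - 1 - j)) -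
      n * τ (ψ' (up κ) * ψ (up q) * ψ (up d) ^ (n - 1)) =
    ∑ j ∈ Finset.range n, ∑ i ∈ Finset.range j,
      Ph ψ ψ' (ψ' (up d') - ψ (up d)) τ (q * d ^ (n - 2 - i)) (κ * d' ^ i) := by
  have h1 : ∀ j ∈ Finset.range n,
      τ (ψ' (up d') ^ j * (ψ' (up κ) * ψ (up q)) * ψ (up d) ^ (n - 1 - j)) -
        τ (ψ' (up κ) * ψ (up q) * ψ (up d) ^ (n - 1)) = ∑ i ∈ Finset.range j,
      Ph ψ ψ' (ψ' (up d') - ψ (up d)) τ (q * d ^ (n - 2 - i)) (κ * d' ^ i) := by
    intro j hj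
    rw [Finset.mem_range] at hj
    have h2 := Finset.sum_range_sub
      (fun i => τ (ψ' (up d') ^ i * (ψ' (up κ) * ψ (up q)) * ψ (up d) ^ (n - 1 - i))) j
    simp only [pow_zero, one_mul, Nat.sub_zero] at h2
    rw [← h2]
    refine Finset.sum_congr rfl fun i hi => ?_
    rw [Finset.mem_range] at hi
    have e1 : n - 1 - i = (n - 2 - i) + 1 := by omega
    have e2 : n - 1 - (i + 1) = n - 2 - i := by omega
    rw [e1, e2, ← map_sub]
    unfold Ph
    congr 1
    have c1 : ψ' (up κ) * ψ' (up d') = ψ' (up d') * ψ' (up κ) := by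
      rw [← map_mul, ← map_mul, mul_comm]
    have c2 : ψ (up q) * ψ (up d) = ψ (up d) * ψ (up q) := by
      rw [← map_mul, ← map_mul, mul_comm]
    have c3 : ψ' (up κ) * ψ' (up d') ^ i = ψ' (up d') ^ i * ψ' (up κ) :=
      (Commute.pow_right c1 i : _)
    rw [up_mul, up_mul, up_pow, up_pow, map_mul, map_mul, map_pow, map_pow]
    calc _ = ψ' (up d') ^ i * (ψ' (up d') * ψ' (up κ)) * ψ (up q) * ψ (up d) ^ (n - 2 - i) -
          ψ' (up d') ^ i * ψ' (up κ) * (ψ (up q) * ψ (up d)) * ψ (up d) ^ (n - 2 - i) := by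
          rw [pow_succ, pow_succ']
          noncomm_ring
      _ = (ψ' (up d') ^ i * ψ' (up κ)) * (ψ' (up d') - ψ (up d)) * ψ (up q) *
          ψ (up d) ^ (n - 2 - i) := by
          rw [← c1, c2]
          noncomm_ring
      _ = _ := by
          rw [← c3]
          noncomm_ring
  rw [← Finset.sum_congr rfl h1, Finset.sum_sub_distrib, Finset.sum_const, Finset.card_range,
    nsmul_eq_mul]

theorem ev_derivative (P : H →L[ℂ] H) (h : Polynomial ℝ) {N : ℕ} (hN : h.natDegree < N) :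
    ev P h.derivative =
      ∑ n ∈ Finset.range N, ((h.coeff n : ℝ) : ℂ) • ((n : ℂ) • P ^ (n - 1)) := by
  have e1 : h.derivative = ∑ n ∈ Finset.range N, C (h.coeff n * n) * X ^ (n - 1) := by
    rw [Polynomial.derivative_apply, Polynomial.sum_over_range' _ (fun k => by simp) N hN]
  rw [e1, ev, Polynomial.map_sum, map_sum]
  refine Finset.sum_congr rfl fun n _ => ?_
  rw [Polynomial.map_mul, Polynomial.map_pow, Polynomial.map_X, Polynomial.map_C, map_mul,
    map_pow, aeval_X, aeval_C, smul_smul, Algebra.algebraMap_eq_smul_one, smul_one_mul]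
  congr 1
  simp

theorem D_eq (d q : C(Ω, ℝ)) (d' κ : C(Ω', ℝ)) (τ : (H →L[ℂ] H) →ₗ[ℂ] ℂ) (h : Polynomial ℝ)
    {N : ℕ} (hN : h.natDegree < N) :
    TQ τ (ψ (up d)) (ψ' (up d')) (ψ' (up κ) * ψ (up q)) h -
        τ (ψ' (up κ) * ψ (up q) * ev (ψ (up d)) h.derivative) =
      Dk ψ ψ' d q d' κ (ψ' (up d') - ψ (up d)) τ h N := by
  unfold TQ Dk
  rw [Polynomial.sum_over_range' _ (fun k => by simp) N hN, ev_derivative _ h hN, Finset.mul_sum,
    map_sum, ← Finset.sum_sub_distrib]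
  refine Finset.sum_congr rfl fun n _ => ?_
  rw [mul_smul_comm, mul_smul_comm, map_smul, map_smul, smul_eq_mul, smul_eq_mul, ← mul_sub,
    mono_term]

theorem Dk_im (hV : Nuc V M τ) (hVs : star V = V) {ι : Type} (e : HilbertBasis ι ℂ H)
    (d q : C(Ω, ℝ)) (d' κ : C(Ω', ℝ)) (h : Polynomial ℝ) (N : ℕ) :
    (Dk ψ ψ' d q d' κ V τ h N).im = 0 := by
  unfold Dk
  rw [Complex.im_sum]
  refine Finset.sum_eq_zero fun n _ => ?_
  rw [Complex.im_ofReal_mul]
  rw [Complex.im_sum]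
  rw [Finset.sum_eq_zero, mul_zero]
  intro j _
  rw [Complex.im_sum]
  exact Finset.sum_eq_zero fun i _ => Ph_im ψ ψ' hV hVs e _ _

theorem Dk_pos (hV : Nuc V M τ) (hVs : star V = V) {ι : Type} (e : HilbertBasis ι ℂ H)
    (d q : C(Ω, ℝ)) (d' κ : C(Ω', ℝ)) (hd : ∀ z, |d z| ≤ 1) (hd' : ∀ z, |d' z| ≤ 1)
    (hq : ∀ z, 0 ≤ q z) (hκ : ∀ z, |κ z| ≤ 1) (w j : Polynomial ℝ) {N : ℕ}
    (hw : w.natDegree < N) (hj : j.natDegree < N)
    (hh : ∀ t : ℝ, |t| ≤ 1 →
      |w.derivative.derivative.eval t| ≤ j.derivative.derivative.eval t) (c : ℝ) (hc : |c| ≤ 1) :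
    0 ≤ Dk ψ ψ' d q d' 1 V τ j N + c * Dk ψ ψ' d q d' κ V τ w N := by
  have h1 := Ph_pos ψ ψ' hV hVs e d hd q hq
    ((Finset.range N).sigma fun n => (Finset.range n).sigma fun j => Finset.range j)
    (fun l => l.1 - 2 - l.2.2)
    (fun l => (j.coeff l.1) • (1 * d' ^ l.2.2) + (c * w.coeff l.1) • (κ * d' ^ l.2.2))
    (by
      intro x hx y
      have h2 := kp_abs w j hw hj hh hx (hd' y)
      have h3 : |c * κ y| ≤ 1 := by
        rw [abs_mul]
        exact mul_le_one₀ hc (abs_nonneg _) (hκ y)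
      have h4 : kp j N x (d' y) + (c * κ y) * kp w N x (d' y) =
          ∑ l ∈ (Finset.range N).sigma fun n => (Finset.range n).sigma fun j => Finset.range j,
            x ^ (l.1 - 2 - l.2.2) * ((j.coeff l.1) • (1 * d' ^ l.2.2) +
              (c * w.coeff l.1) • (κ * d' ^ l.2.2)) y := by
        rw [Finset.sum_sigma]
        unfold kp km
        rw [Finset.mul_sum, ← Finset.sum_add_distrib]
        refine Finset.sum_congr rfl fun n _ => ?_
        rw [Finset.sum_sigma, Finset.mul_sum, Finset.mul_sum, Finset.mul_sum,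
          ← Finset.sum_add_distrib]
        refine Finset.sum_congr rfl fun jj _ => ?_
        rw [Finset.mul_sum, Finset.mul_sum, Finset.mul_sum, ← Finset.sum_add_distrib]
        refine Finset.sum_congr rfl fun i _ => ?_
        simp only [ContinuousMap.add_apply, ContinuousMap.smul_apply, ContinuousMap.mul_apply,
          ContinuousMap.one_apply, ContinuousMap.pow_apply, smul_eq_mul]
        ring
      rw [← h4]
      have h5 : |(c * κ y) * kp w N x (d' y)| ≤ kp j N x (d' y) := by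
        rw [abs_mul]
        calc |c * κ y| * |kp w N x (d' y)| ≤ 1 * |kp w N x (d' y)| := by gcongr
          _ ≤ _ := by rw [one_mul]; exact h2
      linarith [(abs_le.1 h5).1])
  have h6 : ∑ l ∈ (Finset.range N).sigma fun n => (Finset.range n).sigma fun j => Finset.range j,
      Ph ψ ψ' V τ (q * d ^ (l.1 - 2 - l.2.2)) ((j.coeff l.1) • (1 * d' ^ l.2.2) +
        (c * w.coeff l.1) • (κ * d' ^ l.2.2)) =
      Dk ψ ψ' d q d' 1 V τ j N + c * Dk ψ ψ' d q d' κ V τ w N := by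
    unfold Dk
    rw [Finset.sum_sigma, Finset.mul_sum, ← Finset.sum_add_distrib]
    refine Finset.sum_congr rfl fun n _ => ?_
    rw [Finset.sum_sigma, Finset.mul_sum, Finset.mul_sum, Finset.mul_sum,
      ← Finset.sum_add_distrib]
    refine Finset.sum_congr rfl fun jj _ => ?_
    rw [Finset.mul_sum, Finset.mul_sum, Finset.mul_sum, ← Finset.sum_add_distrib]
    refine Finset.sum_congr rfl fun i _ => ?_
    simp only
    rw [Ph_add_right, Ph_smul_right, Ph_smul_right]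
    push_cast
    ring
  rw [← h6]
  exact h1

end form

end BDAux

open BDAux

theorem stmt_BD : Stmt_BD.{v} := by
  intro H _ _ _ ι e Ω Ω' _ _ _ _ ψ ψ' d d' hd hd' M τ hV w j hh q κ hq hκ
  have hVs : star (ψ' (up d') - ψ (up d)) = ψ' (up d') - ψ (up d) := by
    rw [star_sub, ← map_star, ← map_star, star_up, star_up]
  set N := max w.natDegree j.natDegree + 1 with hN
  have hw : w.natDegree < N := Nat.lt_succ_of_le (le_max_left _ _)
  have hj : j.natDegree < N := Nat.lt_succ_of_le (le_max_right _ _)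
  have e1 := D_eq ψ ψ' d q d' κ τ w hw
  have e2 := D_eq ψ ψ' d q d' 1 τ j hj
  rw [up_one, map_one, one_mul] at e2
  rw [e1, e2]
  have h1 := Dk_pos ψ ψ' hV hVs e d q d' κ hd hd' hq hκ w j hw hj hh 1 (by simp)
  have h2 := Dk_pos ψ ψ' hV hVs e d q d' κ hd hd' hq hκ w j hw hj hh (-1) (by simp)
  have h3 := Dk_im ψ ψ' hV hVs e d q d' κ w N
  have h1' := (Complex.nonneg_iff.1 h1).1
  have h2' := (Complex.nonneg_iff.1 h2).1
  rw [Complex.add_re, Complex.re_ofReal_mul] at h1' h2'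
  set A := Dk ψ ψ' d q d' κ (ψ' (up d') - ψ (up d)) τ w N
  have h4 : A = (A.re : ℂ) := Complex.ext (by simp) (by simp [h3])
  rw [h4, Complex.norm_real, Real.norm_eq_abs, abs_le]
  constructor <;> linarith

end Pool.LG
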