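import Pool.Agent.Work.LipGraph.Union.TSA

/-!
# Block TS: the two-sided estimate near the zero set
-/

open Matrix MeasureTheory Filter
open scoped ComplexOrder InnerProductSpace

namespace Pool.LG

open Pool.PN ODAux OFAux TSAux

universe v

namespace TSAux

variable {H : Type v} [NormedAddCommGroup H] [InnerProductSpace ℂ H] [CompleteSpace H]
  {ι : Type} (e : HilbertBasis ι ℂ H)
  {Ω Ω' : Type} [TopologicalSpace Ω] [CompactSpace Ω] [TopologicalSpace Ω'] [CompactSpace Ω']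
  (ψ : C(Ω, ℂ) →⋆ₐ[ℂ] (H →L[ℂ] H)) (ψ' : C(Ω', ℂ) →⋆ₐ[ℂ] (H →L[ℂ] H))
  {d : C(Ω, ℝ)} {d' : C(Ω', ℝ)}

include e in
/-- Klein's inequality with weight -/
theorem klein (hBD : Stmt_BD.{v}) (hd : ∀ z, |d z| ≤ 1) (hd' : ∀ z, |d' z| ≤ 1) {M : ℝ}
    {τ : (H →L[ℂ] H) →ₗ[ℂ] ℂ} (hV : Nuc (ψ' (up d') - ψ (up d)) M τ) {h : Polynomial ℝ}
    (hh : ∀ t : ℝ, |t| ≤ 1 → 0 ≤ h.derivative.derivative.eval t) {q : C(Ω, ℝ)}
    (hq : ∀ z, 0 ≤ q z) :
    (τ (ψ (up q) * ev (ψ (up d)) h.derivative)).re ≤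
      (TQ τ (ψ (up d)) (ψ' (up d')) (ψ (up q)) h).re := by
  have h1 := hBD H ι e Ω Ω' ψ ψ' d d' hd hd' M τ hV 0 h (fun t ht => by simpa using hh t ht) q 0 hq
    (fun z => by simp)
  have h2 := (norm_nonneg _).trans h1
  rw [Complex.sub_re] at h2
  linarith

include e in
/-- closure, `0 ≤ S ≤ 1` -/
theorem closure1 (hBD : Stmt_BD.{v}) (hd : ∀ z, |d z| ≤ 1) (hd' : ∀ z, |d' z| ≤ 1) {M : ℝ}
    {τ : (H →L[ℂ] H) →ₗ[ℂ] ℂ} (hV : Nuc (ψ' (up d') - ψ (up d)) M τ) {c : ℝ} (hc0 : 0 ≤ c)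
    (hc : ∀ q : C(Ω, ℝ), ‖τ (ψ (up q))‖ ≤ c * ‖q‖) (hc' : ∀ q : C(Ω', ℝ), ‖τ (ψ' (up q))‖ ≤ c * ‖q‖)
    {h : Polynomial ℝ} (hh : ∀ t : ℝ, |t| ≤ 1 → 0 ≤ h.derivative.derivative.eval t) {s : ℝ}
    (hs : ∀ t : ℝ, |t| ≤ 1 → |h.derivative.eval t| ≤ s) {q : C(Ω, ℝ)}
    (hq0 : ∀ z, 0 ≤ q z) (hq1 : ∀ z, q z ≤ 1) :
    ‖TQ τ (ψ (up d)) (ψ' (up d')) (ψ (up q)) h‖ ≤ 2 * c * s ∧
    ‖TQ τ (ψ (up d)) (ψ' (up d')) 1 h‖ ≤ c * s := by
  have hs0 : 0 ≤ s := (abs_nonneg _).trans (hs 0 (by simp))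
  obtain ⟨N, σ, hσ, hσ'⟩ := pol_ex' hV h
  -- reality
  have hsaD : IsSelfAdjoint (ev (ψ' (up d')) h - ev (ψ (up d)) h) := by
    rw [ev_psi, ev_psi]
    exact (sa_up ψ' _).sub (sa_up ψ _)
  have hre : ∀ r : C(Ω, ℝ), (TQ τ (ψ (up d)) (ψ' (up d')) (ψ (up r)) h).im = 0 := by
    intro r
    rw [← hσ']
    exact real e hσ hsaD (sa_up ψ r)
  have h1' : ψ (up (1 : C(Ω, ℝ))) = 1 := by rw [up_one, map_one]
  have h1'' : ψ' (up (1 : C(Ω', ℝ))) = 1 := by rw [up_one, map_one]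
  -- lower bounds
  have hlow : ∀ r : C(Ω, ℝ), (∀ z, 0 ≤ r z) → (∀ z, r z ≤ 1) →
      -(c * s) ≤ (TQ τ (ψ (up d)) (ψ' (up d')) (ψ (up r)) h).re := by
    intro r hr0 hr1
    have h1 := klein e ψ ψ' hBD hd hd' hV hh hr0
    rw [ev_psi, ← map_mul, ← up_mul] at h1
    have h2 := hc (r * pc h.derivative d)
    have h3 : ‖r * pc h.derivative d‖ ≤ s := nrm_le hs0 fun z => by
      rw [ContinuousMap.mul_apply, abs_mul]
      have := hs _ (hd z)
      have h4 : |r z| ≤ 1 := abs_le.2 ⟨by linarith [hr0 z], hr1 z⟩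
      calc |r z| * |pc h.derivative d z| ≤ 1 * s := by
            gcongr
            exact this
        _ = s := one_mul s
    have h4 : c * ‖r * pc h.derivative d‖ ≤ c * s := by gcongr
    have h5 := Complex.abs_re_le_norm (τ (ψ (up (r * pc h.derivative d))))
    have h6 := neg_abs_le (τ (ψ (up (r * pc h.derivative d)))).re
    linarith
  -- upper bound
  have hup : (TQ τ (ψ (up d)) (ψ' (up d')) 1 h).re ≤ c * s := by
    have hV' := hV.smul (-1)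
    have e1 : (-1 : ℂ) • (ψ' (up d') - ψ (up d)) = ψ (up d) - ψ' (up d') := by module
    rw [e1] at hV'
    have h1 := klein e ψ' ψ hBD hd' hd hV' hh (q := 1) (fun z => by simp)
    rw [h1'', one_mul] at h1
    obtain ⟨N', σ', hs1, hs2⟩ := pol_ex' hV' h
    have h2 := hs1.smul (-1)
    have e2 : (-1 : ℂ) • (ev (ψ (up d)) h - ev (ψ' (up d')) h) =
        ev (ψ' (up d')) h - ev (ψ (up d)) h := by module
    rw [e2] at h2
    have h3 := uniq e h2 hσ 1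
    rw [LinearMap.smul_apply, hs2, hσ'] at h3
    rw [← h3, smul_eq_mul, neg_one_mul, Complex.neg_re]
    rw [LinearMap.smul_apply, ev_psi, smul_eq_mul, neg_one_mul, Complex.neg_re] at h1
    have h4 := hc' (pc h.derivative d')
    have h5 : ‖pc h.derivative d'‖ ≤ s := nrm_le hs0 fun z => hs _ (hd' z)
    have h6 : c * ‖pc h.derivative d'‖ ≤ c * s := by gcongr
    have h7 := (le_abs_self _).trans (Complex.abs_re_le_norm (τ (ψ' (up (pc h.derivative d')))))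
    linarith
  have hlow1 := hlow 1 (fun z => by simp) (fun z => by simp)
  rw [h1'] at hlow1
  have him1 := hre 1
  rw [h1'] at him1
  have hnorm : ∀ (w : ℂ) (b : ℝ), w.im = 0 → -b ≤ w.re → w.re ≤ b → ‖w‖ ≤ b := by
    intro w b h1 h2 h3
    have : w = (w.re : ℂ) := Complex.ext (by simp) (by simpa using h1)
    rw [this, Complex.norm_real, Real.norm_eq_abs]
    exact abs_le.2 ⟨h2, h3⟩
  refine ⟨hnorm _ _ (hre q) ?_ ?_, hnorm _ _ him1 hlow1 hup⟩
  · have := hlow q hq0 hq1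
    have h9 : 0 ≤ c * s := by positivity
    linarith
  · have h8 := hlow (1 - q) (fun z => by simpa using hq1 z) (fun z => by simpa using hq0 z)
    have h9 : ψ (up (1 - q)) = 1 + (-1 : ℂ) • ψ (up q) := by
      rw [up_sub, map_sub, h1']
      module
    rw [h9, TQ_Zadd, TQ_Zsmul, neg_one_mul, Complex.add_re, Complex.neg_re] at h8
    linarith

include e in
/-- closure, `|S| ≤ 1` -/
theorem closure2 (hBD : Stmt_BD.{v}) (hd : ∀ z, |d z| ≤ 1) (hd' : ∀ z, |d' z| ≤ 1) {M : ℝ}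
    {τ : (H →L[ℂ] H) →ₗ[ℂ] ℂ} (hV : Nuc (ψ' (up d') - ψ (up d)) M τ) {c : ℝ} (hc0 : 0 ≤ c)
    (hc : ∀ q : C(Ω, ℝ), ‖τ (ψ (up q))‖ ≤ c * ‖q‖) (hc' : ∀ q : C(Ω', ℝ), ‖τ (ψ' (up q))‖ ≤ c * ‖q‖)
    {h : Polynomial ℝ} (hh : ∀ t : ℝ, |t| ≤ 1 → 0 ≤ h.derivative.derivative.eval t) {s : ℝ}
    (hs : ∀ t : ℝ, |t| ≤ 1 → |h.derivative.eval t| ≤ s) {q : C(Ω, ℝ)}
    (hq : ∀ z, |q z| ≤ 1) :
    ‖TQ τ (ψ (up d)) (ψ' (up d')) (ψ (up q)) h‖ ≤ 5 * c * s := by
  set r : C(Ω, ℝ) := (1 / 2 : ℝ) • (1 + q) with hr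
  obtain ⟨h1, h2⟩ := closure1 e ψ ψ' hBD hd hd' hV hc0 hc hc' hh hs (q := r)
    (fun z => by
      have := (abs_le.1 (hq z)).1
      simp only [hr, ContinuousMap.smul_apply, ContinuousMap.add_apply, ContinuousMap.one_apply,
        smul_eq_mul]
      linarith)
    (fun z => by
      have := (abs_le.1 (hq z)).2
      simp only [hr, ContinuousMap.smul_apply, ContinuousMap.add_apply, ContinuousMap.one_apply,
        smul_eq_mul]
      linarith)
  have h3 : ψ (up q) = (2 : ℂ) • ψ (up r) + (-1 : ℂ) • 1 := by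
    rw [hr, up_smul, up_add, up_one, map_smul, map_add, map_one]
    push_cast
    module
  rw [h3, TQ_Zadd, TQ_Zsmul, TQ_Zsmul]
  refine (norm_add_le _ _).trans ?_
  rw [norm_mul, norm_mul, norm_neg, norm_one, one_mul, Complex.norm_ofNat]
  linarith

include e in
theorem main1 (hUP : Stmt_UP) (hBD : Stmt_BD.{v}) (hd : ∀ z, |d z| ≤ 1) (hd' : ∀ z, |d' z| ≤ 1)
    {M : ℝ} {τ : (H →L[ℂ] H) →ₗ[ℂ] ℂ} (hV : Nuc (ψ' (up d') - ψ (up d)) M τ) {c : ℝ} (hc0 : 0 ≤ c)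
    (hc : ∀ q : C(Ω, ℝ), ‖τ (ψ (up q))‖ ≤ c * ‖q‖) (hc' : ∀ q : C(Ω', ℝ), ‖τ (ψ' (up q))‖ ≤ c * ‖q‖)
    {κ : C(Ω, ℝ)} {κ' : C(Ω', ℝ)} (hκ : ∀ z, |κ z| ≤ 1) (hκ' : ∀ z, |κ' z| ≤ 1) {Θ : ℝ}
    {σ : (H →L[ℂ] H) →ₗ[ℂ] ℂ} (hσ : Nuc (ψ' (up κ') - ψ (up κ)) Θ σ) {m : ℕ} (hm : 1 ≤ m)
    {q : C(Ω, ℝ)} (hq : ∀ z, |q z| ≤ 1) (hq' : ∀ z, q z ≠ 0 → m * |d z| ≤ 1 / 4) :
    ∃ q₁ : C(Ω, ℝ), (∀ z, |q₁ z| ≤ 1) ∧ (∀ z, q₁ z ≠ 0 → m * |d z| ≤ 1 / 4) ∧
      ‖τ (ψ' (up κ') * ψ (up q))‖ ≤ 70 * c + 4 * Θ / m + 1 / 4 * ‖τ (ψ' (up κ') * ψ (up q₁))‖ := by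
  obtain ⟨θ, j, h1, h2, h3, h4, h5⟩ := hUP m hm
  set w : Polynomial ℝ := Polynomial.X - θ with hw
  have hw1 : w.derivative = 1 - θ.derivative := by rw [hw]; simp
  have hw2 : w.derivative.derivative = -θ.derivative.derivative := by rw [hw1]; simp
  have hwθ : w + θ = Polynomial.X := by rw [hw]; ring
  set Z := ψ' (up κ') * ψ (up q) with hZ
  -- q₁
  set q₁ : C(Ω, ℝ) := (4 : ℝ) • (q * pc w.derivative d) with hq₁
  have hq₁b : ∀ z, |q₁ z| ≤ 1 := by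
    intro z
    simp only [hq₁, ContinuousMap.smul_apply, ContinuousMap.mul_apply, smul_eq_mul, abs_mul]
    by_cases hz : q z = 0
    · simp [hz]
    · have h6 := h5 _ (hq' z hz)
      have h7 : |pc w.derivative d z| ≤ 1 / 4 := by
        simp only [pc, ContinuousMap.coe_mk, hw1]
        simpa using h6
      have h8 : |(4 : ℝ)| = 4 := abs_of_pos (by norm_num)
      rw [h8]
      have h9 := hq z
      have := mul_le_mul h9 h7 (abs_nonneg _) zero_le_one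
      linarith
  refine ⟨q₁, hq₁b, fun z hz => hq' z fun h0 => hz (by simp [hq₁, h0]), ?_⟩
  -- second term
  have hsec : τ (Z * ev (ψ (up d)) w.derivative) = (1 / 4 : ℂ) * τ (ψ' (up κ') * ψ (up q₁)) := by
    rw [ev_psi, hZ, mul_assoc, ← map_mul, ← up_mul, hq₁, up_smul, map_smul, mul_smul_comm, map_smul,
      smul_eq_mul]
    push_cast
    ring
  -- first term
  set qp : C(Ω, ℝ) := ⟨fun z => (|q z| + q z) / 2, by fun_prop⟩ with hqp
  set qm : C(Ω, ℝ) := ⟨fun z => (|q z| - q z) / 2, by fun_prop⟩ with hqm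
  set qa : C(Ω, ℝ) := ⟨fun z => |q z|, by fun_prop⟩ with hqa
  have e1 : ψ (up q) = ψ (up qp) + (-1 : ℂ) • ψ (up qm) := by
    rw [← map_smul, ← map_add]
    congr 1
    ext z
    simp [hqp, hqm]
    ring
  have e2 : ψ (up qa) = ψ (up qp) + ψ (up qm) := by
    rw [← map_add]
    congr 1
    ext z
    simp [hqp, hqm, hqa]
    ring
  have hw2' : ∀ t : ℝ, |t| ≤ 1 → |w.derivative.derivative.eval t| ≤
      j.derivative.derivative.eval t := by
    intro t ht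
    rw [hw2, Polynomial.eval_neg, abs_neg]
    exact h4 t ht
  have b1 := hBD H ι e Ω Ω' ψ ψ' d d' hd hd' M τ hV w j hw2' qp κ'
    (fun z => by simp only [hqp, ContinuousMap.coe_mk]; linarith [neg_abs_le (q z)]) hκ'
  have b2 := hBD H ι e Ω Ω' ψ ψ' d d' hd hd' M τ hV w j hw2' qm κ'
    (fun z => by simp only [hqm, ContinuousMap.coe_mk]; linarith [le_abs_self (q z)]) hκ'
  have hjj : ∀ t : ℝ, |t| ≤ 1 → 0 ≤ j.derivative.derivative.eval t := fun t ht =>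
    (abs_nonneg _).trans (h4 t ht)
  have b3 : ‖TQ τ (ψ (up d)) (ψ' (up d')) (ψ (up qa)) j‖ ≤ 2 * c * 5 :=
    (closure1 e ψ ψ' hBD hd hd' hV hc0 hc hc' hjj h3 (q := qa) (fun z => abs_nonneg _) hq).1
  have b4 : ‖τ (ψ (up qa) * ev (ψ (up d)) j.derivative)‖ ≤ c * 5 := by
    rw [ev_psi, ← map_mul, ← up_mul]
    refine (hc _).trans ?_
    have : ‖qa * pc j.derivative d‖ ≤ 5 := nrm_le (by norm_num) fun z => by
      rw [ContinuousMap.mul_apply, abs_mul]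
      have h6 : |qa z| ≤ 1 := by
        simp only [hqa, ContinuousMap.coe_mk, abs_abs]; exact hq z
      have h7 : |pc j.derivative d z| ≤ 5 := h3 _ (hd z)
      calc |qa z| * |pc j.derivative d z| ≤ 1 * 5 := by gcongr
        _ = 5 := by norm_num
    gcongr
  have hfirst : ‖TQ τ (ψ (up d)) (ψ' (up d')) Z w - τ (Z * ev (ψ (up d)) w.derivative)‖ ≤
      15 * c := by
    have e3 : TQ τ (ψ (up d)) (ψ' (up d')) Z w - τ (Z * ev (ψ (up d)) w.derivative) =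
        (TQ τ (ψ (up d)) (ψ' (up d')) (ψ' (up κ') * ψ (up qp)) w -
          τ (ψ' (up κ') * ψ (up qp) * ev (ψ (up d)) w.derivative)) -
        (TQ τ (ψ (up d)) (ψ' (up d')) (ψ' (up κ') * ψ (up qm)) w -
          τ (ψ' (up κ') * ψ (up qm) * ev (ψ (up d)) w.derivative)) := by
      rw [hZ, e1, mul_add, mul_smul_comm, TQ_Zadd, TQ_Zsmul, add_mul, smul_mul_assoc, map_add,
        map_smul, smul_eq_mul]
      ring
    rw [e3]
    refine (norm_sub_le _ _).trans ((add_le_add b1 b2).trans ?_)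
    rw [← Complex.add_re]
    have e4 : (TQ τ (ψ (up d)) (ψ' (up d')) (ψ (up qp)) j -
        τ (ψ (up qp) * ev (ψ (up d)) j.derivative)) +
        (TQ τ (ψ (up d)) (ψ' (up d')) (ψ (up qm)) j -
        τ (ψ (up qm) * ev (ψ (up d)) j.derivative)) =
        TQ τ (ψ (up d)) (ψ' (up d')) (ψ (up qa)) j -
        τ (ψ (up qa) * ev (ψ (up d)) j.derivative) := by
      rw [e2, TQ_Zadd, add_mul, map_add]
      ring
    rw [e4]
    refine ((le_abs_self _).trans (Complex.abs_re_le_norm _)).trans ((norm_sub_le _ _).trans ?_)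
    linarith
  -- third term
  have hthird : ‖TQ τ (ψ (up d)) (ψ' (up d')) Z θ‖ ≤ 55 * c + 4 * Θ / m := by
    obtain ⟨N, σθ, n1, n2⟩ := pol_ex' hV θ
    have e5 : Z = ψ (up (κ * q)) + (ψ' (up κ') - ψ (up κ)) * ψ (up q) := by
      rw [up_mul, map_mul, hZ]
      noncomm_ring
    rw [e5, TQ_Zadd]
    refine (norm_add_le _ _).trans (add_le_add ?_ ?_)
    · -- closure
      have hκq : ∀ z, |(κ * q) z| ≤ 1 := by
        intro z
        rw [ContinuousMap.mul_apply, abs_mul]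
        exact mul_le_one₀ (hκ z) (abs_nonneg _) (hq z)
      have c1 := closure2 e ψ ψ' hBD hd hd' hV hc0 hc hc' hjj h3 hκq
      have c2 := closure2 e ψ ψ' hBD hd hd' hV hc0 hc hc' (h := θ + j) (s := 6)
        (fun t ht => by
          rw [Polynomial.derivative_add, Polynomial.derivative_add, Polynomial.eval_add]
          have := (abs_le.1 (h4 t ht)).1
          linarith)
        (fun t ht => by
          rw [Polynomial.derivative_add, Polynomial.eval_add]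
          refine (abs_add_le _ _).trans ?_
          have := h2 t ht
          have := h3 t ht
          linarith) hκq
      have e6 : TQ τ (ψ (up d)) (ψ' (up d')) (ψ (up (κ * q))) θ =
          TQ τ (ψ (up d)) (ψ' (up d')) (ψ (up (κ * q))) (θ + j) -
          TQ τ (ψ (up d)) (ψ' (up d')) (ψ (up (κ * q))) j := by
        rw [TQ_add]; ring
      rw [e6]
      refine (norm_sub_le _ _).trans ?_
      linarith
    · rw [← n2, swap e n1 hσ]
      refine (hσ.bd _).trans ?_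
      have hm0 : (0 : ℝ) < m := by exact_mod_cast hm
      have t1 : ‖ψ (up q)‖ ≤ 1 := norm_up_le ψ zero_le_one hq
      have t2 : ‖ev (ψ (up d)) θ‖ ≤ 2 / m := by
        rw [ev_psi]
        exact norm_up_le ψ (by positivity) fun z => h1 _ (hd z)
      have t3 : ‖ev (ψ' (up d')) θ‖ ≤ 2 / m := by
        rw [ev_psi]
        exact norm_up_le ψ' (by positivity) fun z => h1 _ (hd' z)
      have t4 : ‖ev (ψ' (up d')) θ - ev (ψ (up d)) θ‖ ≤ 4 / m := by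
        refine (norm_sub_le _ _).trans ?_
        have : (4 : ℝ) / m = 2 / m + 2 / m := by ring
        linarith
      have t5 : ‖ψ (up q) * (ev (ψ' (up d')) θ - ev (ψ (up d)) θ)‖ ≤ 1 * (4 / m) :=
        (norm_mul_le _ _).trans (by gcongr)
      have hΘ := hσ.nonneg
      calc Θ * ‖ψ (up q) * (ev (ψ' (up d')) θ - ev (ψ (up d)) θ)‖ ≤ Θ * (1 * (4 / m)) := by gcongr
        _ = 4 * Θ / m := by ring
  -- sum
  have hsum : τ Z = (TQ τ (ψ (up d)) (ψ' (up d')) Z w - τ (Z * ev (ψ (up d)) w.derivative)) +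
      TQ τ (ψ (up d)) (ψ' (up d')) Z θ + (1 / 4 : ℂ) * τ (ψ' (up κ') * ψ (up q₁)) := by
    rw [← hsec, ← TQ_X τ (ψ (up d)) (ψ' (up d')) Z, ← hwθ, TQ_add]
    ring
  rw [hsum]
  refine (norm_add_le _ _).trans (add_le_add ((norm_add_le _ _).trans ?_) ?_)
  · linarith
  · rw [norm_mul]
    apply le_of_eq
    norm_num

end TSAux

theorem stmt_TS (hUP : Stmt_UP) (hBD : Stmt_BD.{v}) : Stmt_TS.{v} := by
  intro H _ _ _ ι e Ω Ω' _ _ _ _ ψ ψ' d d' hd hd' M τ hV c hc0 hc hc' κ κ' K Θ σ hκ hκ' hK hσ m hm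
    q hq hq'
  have hm0 : (0 : ℝ) < m := by exact_mod_cast hm
  have hΘ := hσ.nonneg
  have hM := hV.nonneg
  rcases hK.eq_or_lt with hK0 | hK0
  · have : up κ' = 0 := by
      ext z
      have h1 := hκ' z
      rw [← hK0] at h1
      have h2 : κ' z = 0 := abs_nonpos_iff.1 h1
      simp [h2]
    rw [this, map_zero, zero_mul, map_zero, norm_zero]
    positivity
  · set κ1 : C(Ω, ℝ) := K⁻¹ • κ with hκ1
    set κ1' : C(Ω', ℝ) := K⁻¹ • κ' with hκ1'
    have b1 : ∀ z, |κ1 z| ≤ 1 := by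
      intro z
      rw [hκ1, ContinuousMap.smul_apply, smul_eq_mul, abs_mul, abs_of_pos (inv_pos.2 hK0),
        inv_mul_le_iff₀ hK0, mul_one]
      exact hκ z
    have b1' : ∀ z, |κ1' z| ≤ 1 := by
      intro z
      rw [hκ1', ContinuousMap.smul_apply, smul_eq_mul, abs_mul, abs_of_pos (inv_pos.2 hK0),
        inv_mul_le_iff₀ hK0, mul_one]
      exact hκ' z
    have b2 := hσ.smul ((K⁻¹ : ℝ) : ℂ)
    have e1 : ((K⁻¹ : ℝ) : ℂ) • (ψ' (up κ') - ψ (up κ)) = ψ' (up κ1') - ψ (up κ1) := by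
      rw [hκ1, hκ1', up_smul, up_smul, map_smul, map_smul, smul_sub]
    rw [e1] at b2
    set Θ1 : ℝ := ‖((K⁻¹ : ℝ) : ℂ)‖ * Θ with hΘ1
    have hΘ1' : Θ1 = K⁻¹ * Θ := by
      rw [hΘ1, Complex.norm_real, Real.norm_eq_abs, abs_of_pos (inv_pos.2 hK0)]
    set A : ℝ := 70 * c + 4 * Θ1 / m with hA
    have hA0 : 0 ≤ A := by rw [hA, hΘ1']; positivity
    have key : ∀ k : ℕ, ∀ q : C(Ω, ℝ), (∀ z, |q z| ≤ 1) → (∀ z, q z ≠ 0 → m * |d z| ≤ 1 / 4) →
        ‖τ (ψ' (up κ1') * ψ (up q))‖ ≤ 4 / 3 * A + (1 / 4) ^ k * M := by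
      intro k
      induction k with
      | zero =>
        intro q hq hq'
        rw [pow_zero, one_mul]
        have h1 : ‖ψ' (up κ1') * ψ (up q)‖ ≤ 1 * 1 := (norm_mul_le _ _).trans (by
          gcongr
          · exact norm_up_le ψ' zero_le_one b1'
          · exact norm_up_le ψ zero_le_one hq)
        have h2 : M * ‖ψ' (up κ1') * ψ (up q)‖ ≤ M * (1 * 1) := by gcongr
        have h3 := hV.bd (ψ' (up κ1') * ψ (up q))
        linarith
      | succ k ih =>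
        intro q hq hq'
        obtain ⟨q₁, h1, h2, h3⟩ := main1 e ψ ψ' hUP hBD hd hd' hV hc0 hc hc' b1 b1' b2 hm hq hq'
        have h4 := ih q₁ h1 h2
        rw [pow_succ]
        linarith
    have hlim : ‖τ (ψ' (up κ1') * ψ (up q))‖ ≤ 4 / 3 * A := by
      have h1 : Tendsto (fun k : ℕ => 4 / 3 * A + (1 / 4 : ℝ) ^ k * M) atTop
          (nhds (4 / 3 * A + 0 * M)) :=
        tendsto_const_nhds.add ((tendsto_pow_atTop_nhds_zero_of_lt_one (by norm_num)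
          (by norm_num)).mul_const M)
      rw [zero_mul, add_zero] at h1
      exact ge_of_tendsto' h1 fun k => key k q hq hq'
    have e2 : ψ' (up κ') * ψ (up q) = (K : ℂ) • (ψ' (up κ1') * ψ (up q)) := by
      rw [hκ1', up_smul, map_smul, smul_mul_assoc, smul_smul, ← Complex.ofReal_mul,
        mul_inv_cancel₀ hK0.ne', Complex.ofReal_one, one_smul]
    rw [e2, map_smul, norm_smul, Complex.norm_real, Real.norm_eq_abs, abs_of_pos hK0]
    calc K * ‖τ (ψ' (up κ1') * ψ (up q))‖ ≤ K * (4 / 3 * A) := by gcongr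
      _ = 4 / 3 * 70 * c * K + 4 / 3 * 4 * Θ / m := by
          rw [hA, hΘ1']
          field_simp
      _ ≤ 94 * c * K + 6 * Θ / m := by
          have h1 : 0 ≤ c * K := by positivity
          have h2 : 0 ≤ Θ / m := by positivity
          have e3 : 4 / 3 * 70 * c * K + 4 / 3 * 4 * Θ / m = 280 / 3 * (c * K) + 16 / 3 * (Θ / m) := by
            ring
          have e4 : 94 * c * K + 6 * Θ / m = 94 * (c * K) + 6 * (Θ / m) := by ring
          rw [e3, e4]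
          linarith

end Pool.LG
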