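import Pool.Agent.Work.LipGraph.Union.UP
import Pool.Agent.Work.LipGraph.Union.BD
import Pool.Agent.Work.LipGraph.Union.TS
import Pool.Agent.Work.LipGraph.Union.Asm

/-!
# Finite unions of Lipschitz graphs: glue
-/

namespace Pool.LG

universe v

theorem stmt_TS' : Stmt_TS.{v} := stmt_TS stmt_UP stmt_BD

theorem stmt_LOC' : Stmt_LOC.{v} := stmt_LOC stmt_OD' stmt_OE stmt_TS'

end Pool.LG
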