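import Pool.Agent.Work.LipGraph.Op.Final

/-!
# Finite unions of Lipschitz graphs: interface

Theorem GraphUnions: `N₁, N₂` bounded normal with trace class difference, the spectrum of `N₁` in a
union of `K` rotated `L`-Lipschitz graphs; then the trace formula holds with masses
`≤ C K (1 + L) M`.  See PROOF.md in this folder.
-/

open Matrix MeasureTheory Filter
open scoped ComplexOrder InnerProductSpace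

namespace Pool.LG

open Pool.PN

universe v

section

variable {Ω : Type} [TopologicalSpace Ω]

/-- a real continuous function as a complex one -/
noncomputable def up (q : C(Ω, ℝ)) : C(Ω, ℂ) := ⟨fun z => (q z : ℂ), by fun_prop⟩

@[simp] theorem up_apply (q : C(Ω, ℝ)) (z : Ω) : up q z = (q z : ℂ) := rfl

end

section

variable {H : Type v} [NormedAddCommGroup H] [InnerProductSpace ℂ H] [CompleteSpace H]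

/-- `tr (Z (h(P') - h(P)))` if `τ Y = tr (Y (P' - P))`; telescoping
`P'^k - P^k = ∑_{j<k} P^{k-1-j} (P' - P) P'^j`. -/
noncomputable def TQ (τ : (H →L[ℂ] H) →ₗ[ℂ] ℂ) (P P' Z : H →L[ℂ] H) (h : Polynomial ℝ) : ℂ :=
  h.sum fun k c => (c : ℂ) * ∑ j ∈ Finset.range k, τ (P' ^ j * Z * P ^ (k - 1 - j))

end

/-- BLOCK UP: the polynomials.  `N = 2 m²`, `θ' = (1 - t²)^(N+1)`, `j'' = 3 m (1 + m² t²) (1 - t²)^N`,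
`θ(0) = 0 = j'(0)`.  Facts (Bernoulli): `(1 + m² t²) (1 - t²)^(m²) ≤ 1`, so `0 ≤ θ' ≤ 1/(1 + m² t²)`,
`j'' ≤ 3 m / (1 + m² t²)`; compare `θ` with `arctan (m t) / m` and `j'` with `3 arctan (m t)`.
`|θ''| = 2 (N+1) |t| (1-t²)^N ≤ j''` since `2 |t| ≤ m t² + 1/m`, `N + 1 ≤ 3 m²`.
`1 - θ' ≤ (N+1) t² ≤ 3 m² t² ≤ 3/16`. -/
def Stmt_UP : Prop := ∀ m : ℕ, 1 ≤ m → ∃ θ j : Polynomial ℝ,
  (∀ t : ℝ, |t| ≤ 1 → |θ.eval t| ≤ 2 / m) ∧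
  (∀ t : ℝ, |t| ≤ 1 → |θ.derivative.eval t| ≤ 1) ∧
  (∀ t : ℝ, |t| ≤ 1 → |j.derivative.eval t| ≤ 5) ∧
  (∀ t : ℝ, |t| ≤ 1 → |θ.derivative.derivative.eval t| ≤ j.derivative.derivative.eval t) ∧
  (∀ t : ℝ, m * |t| ≤ 1 / 4 → |1 - θ.derivative.eval t| ≤ 1 / 4)

/-- BLOCK BD (Bregman domination; `w = 0` is Klein's inequality with weight).
With `P = d(B)`, `P' = d'(A)`, `S = q(B) ≥ 0`, `κ = κ(A)`, `V = P' - P`: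
`|tr S (w(P') - w(P) - w'(P) V) κ| ≤ tr S (j(P') - j(P) - j'(P) V)` if `|w''| ≤ j''` on `[-1,1]`. -/
def Stmt_BD : Prop := ∀ (H : Type v) [NormedAddCommGroup H] [InnerProductSpace ℂ H]
    [CompleteSpace H] (ι : Type) (_ : HilbertBasis ι ℂ H)
    (Ω Ω' : Type) [TopologicalSpace Ω] [CompactSpace Ω] [TopologicalSpace Ω'] [CompactSpace Ω']
    (ψ : C(Ω, ℂ) →⋆ₐ[ℂ] (H →L[ℂ] H)) (ψ' : C(Ω', ℂ) →⋆ₐ[ℂ] (H →L[ℂ] H))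
    (d : C(Ω, ℝ)) (d' : C(Ω', ℝ)), (∀ z, |d z| ≤ 1) → (∀ z, |d' z| ≤ 1) →
    ∀ (M : ℝ) (τ : (H →L[ℂ] H) →ₗ[ℂ] ℂ), Nuc (ψ' (up d') - ψ (up d)) M τ →
    ∀ (w j : Polynomial ℝ), (∀ t : ℝ, |t| ≤ 1 →
      |w.derivative.derivative.eval t| ≤ j.derivative.derivative.eval t) →
    ∀ (q : C(Ω, ℝ)) (κ : C(Ω', ℝ)), (∀ z, 0 ≤ q z) → (∀ z, |κ z| ≤ 1) →
    ‖TQ τ (ψ (up d)) (ψ' (up d')) (ψ' (up κ) * ψ (up q)) w -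
        τ (ψ' (up κ) * ψ (up q) * ev (ψ (up d)) w.derivative)‖ ≤
      (TQ τ (ψ (up d)) (ψ' (up d')) (ψ (up q)) j -
        τ (ψ (up q) * ev (ψ (up d)) j.derivative)).re

/-- BLOCK TS (two-sided estimate near the zero set of `d`).  From UP, BD. -/
def Stmt_TS : Prop := ∀ (H : Type v) [NormedAddCommGroup H] [InnerProductSpace ℂ H]
    [CompleteSpace H] (ι : Type) (_ : HilbertBasis ι ℂ H)
    (Ω Ω' : Type) [TopologicalSpace Ω] [CompactSpace Ω] [TopologicalSpace Ω'] [CompactSpace Ω']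
    (ψ : C(Ω, ℂ) →⋆ₐ[ℂ] (H →L[ℂ] H)) (ψ' : C(Ω', ℂ) →⋆ₐ[ℂ] (H →L[ℂ] H))
    (d : C(Ω, ℝ)) (d' : C(Ω', ℝ)), (∀ z, |d z| ≤ 1) → (∀ z, |d' z| ≤ 1) →
    ∀ (M : ℝ) (τ : (H →L[ℂ] H) →ₗ[ℂ] ℂ), Nuc (ψ' (up d') - ψ (up d)) M τ →
    ∀ (c : ℝ), 0 ≤ c → (∀ q : C(Ω, ℝ), ‖τ (ψ (up q))‖ ≤ c * ‖q‖) →
    (∀ q : C(Ω', ℝ), ‖τ (ψ' (up q))‖ ≤ c * ‖q‖) →
    ∀ (κ : C(Ω, ℝ)) (κ' : C(Ω', ℝ)) (K Θ : ℝ) (σ : (H →L[ℂ] H) →ₗ[ℂ] ℂ),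
    (∀ z, |κ z| ≤ K) → (∀ z, |κ' z| ≤ K) → 0 ≤ K → Nuc (ψ' (up κ') - ψ (up κ)) Θ σ →
    ∀ (m : ℕ), 1 ≤ m → ∀ (q : C(Ω, ℝ)), (∀ z, |q z| ≤ 1) →
    (∀ z, q z ≠ 0 → m * |d z| ≤ 1 / 4) →
    ‖τ (ψ' (up κ') * ψ (up q))‖ ≤ 94 * c * K + 6 * Θ / m

/-- BLOCK LOC: the Lipschitz estimate for polynomials of `N = X + i Y`, `N' = X' + i Y'` with an
insertion `S = q(N)` supported near the graph of `φ`. From OD, OE, TS (proof as for OF). -/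
def Stmt_LOC : Prop := ∃ C : ℝ, 0 ≤ C ∧
  ∀ (H : Type v) [NormedAddCommGroup H] [InnerProductSpace ℂ H] [CompleteSpace H]
    (ι : Type) (_ : HilbertBasis ι ℂ H)
    (X Y X' Y' : H →L[ℂ] H), IsSelfAdjoint X → IsSelfAdjoint Y → IsSelfAdjoint X' →
    IsSelfAdjoint Y' → X * Y = Y * X → X' * Y' = Y' * X' → ∀ M : ℝ, Ser (X' - X) M →
    Ser (Y' - Y) M → ∀ (φ : ℝ → ℝ) (L : NNReal), LipschitzWith L φ →
    ∃ R : ℝ, 0 ≤ R ∧ ∀ (f : MvPolynomial (Fin 2) ℝ) (K : NNReal),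
      LipschitzOnWith K (fun z : ℂ => MvPolynomial.eval ![z.re, z.im] f) (Metric.closedBall 0 R) →
      ∀ δ > 0, ∃ ε > 0, ∀ q : ℂ → ℝ, Continuous q → (∀ z, |q z| ≤ 1) →
      (∀ z, ε < |z.im - φ z.re| → q z = 0) →
      ∃ (N : ℝ) (τ : (H →L[ℂ] H) →ₗ[ℂ] ℂ),
        Nuc (∑ m ∈ f.support, ((f.coeff m : ℝ) : ℂ) •
          (X' ^ (m 0) * Y' ^ (m 1) - X ^ (m 0) * Y ^ (m 1))) N τ ∧
        ‖τ (cfc (fun z => (q z : ℂ)) (X + Complex.I • Y))‖ ≤ C * (1 + L) * K * M + δ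

end Pool.LG
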