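import Pool.Agent.Work.LipGraph.Union.TSA

/-!
# Block LOC: the local Lipschitz estimate
-/

open Matrix MeasureTheory Filter
open scoped ComplexOrder InnerProductSpace

namespace Pool.LG

open Pool.PN Pool.FR.FAux ODAux OFAux TSAux

universe v

namespace LOCAux

variable {H : Type v} [NormedAddCommGroup H] [InnerProductSpace ℂ H] [CompleteSpace H]

/-- restriction of a continuous real function to a set -/
noncomputable def rs (σ : Set ℂ) (q : ℂ → ℝ) (hq : Continuous q) : C(σ, ℝ) :=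
  ⟨fun z => q z, hq.comp continuous_subtype_val⟩

theorem rep {X Y : H →L[ℂ] H} (hX : IsSelfAdjoint X) (hY : IsSelfAdjoint Y)
    (hc : X * Y = Y * X) :
    ∃ ψ : C(spectrum ℂ (NN X Y), ℂ) →⋆ₐ[ℂ] (H →L[ℂ] H),
      ψ (up (rs _ Complex.re Complex.continuous_re)) = X ∧
      ψ (up (rs _ Complex.im Complex.continuous_im)) = Y ∧
      ∀ (q : ℂ → ℝ) (hq : Continuous q), ψ (up (rs _ q hq)) = cfc (fun z => (q z : ℂ)) (NN X Y) := by
  have hN := normal hX hY hc
  have key : ∀ (q : ℂ → ℝ) (hq : Continuous q), cfcHom (R := ℂ) hN (up (rs _ q hq)) =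
      cfc (fun z => (q z : ℂ)) (NN X Y) := by
    intro q hq
    rw [cfc_apply (fun z : ℂ => (q z : ℂ)) (NN X Y) hN
      (Complex.continuous_ofReal.comp hq).continuousOn]
    rfl
  refine ⟨cfcHom (R := ℂ) hN, ?_, ?_, key⟩
  · rw [key]; exact cfc_re hX hY hc
  · rw [key]; exact cfc_im hX hY hc

theorem kr_cont3 (f : MvPolynomial (Fin 2) ℝ) (p : Polynomial ℝ) :
    Continuous fun z : ℂ => kr f z.re z.im (p.eval z.re) := by
  unfold kr
  fun_prop

theorem psi_kk {X Y : H →L[ℂ] H} {ψ : C(spectrum ℂ (NN X Y), ℂ) →⋆ₐ[ℂ] (H →L[ℂ] H)}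
    (h1 : ψ (up (rs _ Complex.re Complex.continuous_re)) = X)
    (h2 : ψ (up (rs _ Complex.im Complex.continuous_im)) = Y)
    (f : MvPolynomial (Fin 2) ℝ) (p : Polynomial ℝ) :
    ψ (up (rs _ _ (kr_cont3 f p))) = kk f X Y (ev X p) := by
  set x := up (rs (spectrum ℂ (NN X Y)) Complex.re Complex.continuous_re) with hx
  set y := up (rs (spectrum ℂ (NN X Y)) Complex.im Complex.continuous_im) with hy
  have e1 : kk f X Y (ev X p) = ψ (kk f x y (ev x p)) := by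
    have h4 := kk_map (ψ : C(spectrum ℂ (NN X Y), ℂ) →ₐ[ℂ] (H →L[ℂ] H)) f x y (ev x p)
    rw [ev_map] at h4
    change ψ (kk f x y (ev x p)) = kk f (ψ x) (ψ y) (ev (ψ x) p) at h4
    rw [h4, h1, h2]
  rw [e1]
  congr 1
  ext z
  have h4 := kk_map (evh z) f x y (ev x p)
  rw [ev_map] at h4
  change kk f x y (ev x p) z = kk f ((z : ℂ).re : ℂ) ((z : ℂ).im : ℂ) (ev ((z : ℂ).re : ℂ) p) at h4
  rw [h4, ev_real, kk_real]
  rfl

end LOCAux

open LOCAux

theorem stmt_LOC (hD : Stmt_OD.{v}) (hE : Stmt_OE.{v}) (hTS : Stmt_TS.{v}) : Stmt_LOC.{v} := by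
  obtain ⟨C, hC0, hC⟩ := hD
  refine ⟨95 * C + 94, by positivity, ?_⟩
  intro H _ _ _ ι bas X Y X' Y' hX hY hX' hY' hc hc' M hSX hSY φ L hφ
  obtain ⟨τX, hNX⟩ := ser_nuc hSX
  obtain ⟨τY, hNY⟩ := ser_nuc hSY
  have hM := hNX.nonneg
  -- radii
  set R1 : ℝ := ‖X‖ + ‖Y‖ + ‖X'‖ + ‖Y'‖ + M + 2 with hR1
  have nX := norm_nonneg X
  have nY := norm_nonneg Y
  have nX' := norm_nonneg X'
  have nY' := norm_nonneg Y'
  have hR1pos : 0 < R1 := by rw [hR1]; positivity
  set R2 : ℝ := |φ 0| + L * R1 + 1 with hR2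
  have hR2pos : 0 < R2 := by rw [hR2]; positivity
  refine ⟨2 * R1 + R2 + 1, by positivity, fun f K hf δ hδ => ?_⟩
  set b : ℝ := R1 + R2 with hb
  have hb1 : 1 ≤ b := by rw [hb, hR1]; linarith
  have hb0 : 0 < b := by linarith
  set Q : ℝ := 95 * C * K * M + 147 * Cf f b * M + 1 with hQ
  have hCf := Cf_nonneg f hb1
  have hQ1 : 1 ≤ Q := by
    rw [hQ]
    have : 0 ≤ 95 * C * K * M + 147 * Cf f b * M := by positivity
    linarith
  set η : ℝ := min (1 / 8) (δ / Q) with hη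
  have hη0 : 0 < η := lt_min (by norm_num) (by positivity)
  have hη1 : η ≤ 1 / 8 := min_le_left _ _
  have hηQ : η * Q ≤ δ := by
    have : η ≤ δ / Q := min_le_right _ _
    rwa [le_div_iff₀ (by linarith)] at this
  obtain ⟨p, ε, Λ, hε0, hΛ0, hεη, hεΛ, hp1, hp2, hp3⟩ := hE φ L hφ R1 η hR1pos hη0
  -- bounds for p
  have hpb : ∀ t, |t| ≤ R1 → |p.eval t| ≤ R2 := by
    intro t ht
    have h1 := hp2 t ht
    have h2 := hφ.dist_le_mul t 0
    rw [Real.dist_eq, Real.dist_eq, sub_zero] at h2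
    have h3 : |p.eval t| ≤ |p.eval t - φ t| + |φ t - φ 0| + |φ 0| := by
      have := abs_add_three (p.eval t - φ t) (φ t - φ 0) (φ 0)
      simpa using this
    have h4 : (L : ℝ) * |t| ≤ L * R1 := by gcongr
    rw [hR2]
    linarith
  -- spectra
  have hN : ‖NN X Y‖ ≤ ‖X‖ + ‖Y‖ := by
    unfold NN
    refine (norm_add_le _ _).trans ?_
    rw [norm_smul, Complex.norm_I, one_mul]
  have hN' : ‖NN X' Y'‖ ≤ ‖X'‖ + ‖Y'‖ := by
    unfold NN
    refine (norm_add_le _ _).trans ?_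
    rw [norm_smul, Complex.norm_I, one_mul]
  have hre : ∀ z ∈ spectrum ℂ (NN X Y), |z.re| ≤ ‖X‖ + ‖Y‖ ∧ |z.im| ≤ ‖X‖ + ‖Y‖ := by
    intro z hz
    exact ⟨(Complex.abs_re_le_norm z).trans ((spec_bound hz).trans hN),
      (Complex.abs_im_le_norm z).trans ((spec_bound hz).trans hN)⟩
  have hre' : ∀ z ∈ spectrum ℂ (NN X' Y'), |z.re| ≤ ‖X'‖ + ‖Y'‖ ∧ |z.im| ≤ ‖X'‖ + ‖Y'‖ := by
    intro z hz
    exact ⟨(Complex.abs_re_le_norm z).trans ((spec_bound hz).trans hN'),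
      (Complex.abs_im_le_norm z).trans ((spec_bound hz).trans hN')⟩
  have hre1 : ∀ z ∈ spectrum ℂ (NN X Y), |z.re| ≤ R1 ∧ |z.im| ≤ R1 := by
    intro z hz
    have := hre z hz
    constructor <;> rw [hR1] <;> linarith [this.1, this.2]
  have hre1' : ∀ z ∈ spectrum ℂ (NN X' Y'), |z.re| ≤ R1 ∧ |z.im| ≤ R1 := by
    intro z hz
    have := hre' z hz
    constructor <;> rw [hR1] <;> linarith [this.1, this.2]
  -- representations
  obtain ⟨ψ, px, py, pq⟩ := rep hX hY hc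
  obtain ⟨ψ', px', py', -⟩ := rep hX' hY' hc'
  set x := rs (spectrum ℂ (NN X Y)) Complex.re Complex.continuous_re with hx
  set y := rs (spectrum ℂ (NN X Y)) Complex.im Complex.continuous_im with hy
  set x' := rs (spectrum ℂ (NN X' Y')) Complex.re Complex.continuous_re with hx'
  set y' := rs (spectrum ℂ (NN X' Y')) Complex.im Complex.continuous_im with hy'
  have pk := psi_kk px py f p
  have pk' := psi_kk px' py' f p
  set κ := rs (spectrum ℂ (NN X Y)) _ (kr_cont3 f p) with hκ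
  set κ' := rs (spectrum ℂ (NN X' Y')) _ (kr_cont3 f p) with hκ'
  set W : H →L[ℂ] H := ev X p with hW
  set W' : H →L[ℂ] H := ev X' p with hW'
  have pW : ψ (up (pc p x)) = W := by rw [hW, ← ev_psi, px]
  have pW' : ψ' (up (pc p x')) = W' := by rw [hW', ← ev_psi, px']
  set d := y - pc p x with hd
  set d' := y' - pc p x' with hd'
  have pd : ψ (up d) = Y - W := by rw [hd, up_sub, map_sub, py, pW]
  have pd' : ψ' (up d') = Y' - W' := by rw [hd', up_sub, map_sub, py', pW']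
  set k : H →L[ℂ] H := kk f X Y W with hk
  set k' : H →L[ℂ] H := kk f X' Y' W' with hk'
  have hκb : ∀ z, |κ z| ≤ K := by
    intro z
    have h1 := hre z z.2
    refine kr_le f hf ?_ ?_
    · rw [hR1]; linarith [h1.1, h1.2]
    · have h2 := hpb _ (hre1 z z.2).1
      have h3 := (hre1 z z.2).1
      linarith
  have hκb' : ∀ z, |κ' z| ≤ K := by
    intro z
    have h1 := hre' z z.2
    refine kr_le f hf ?_ ?_
    · rw [hR1]; linarith [h1.1, h1.2]
    · have h2 := hpb _ (hre1' z z.2).1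
      have h3 := (hre1' z z.2).1
      linarith
  have hWn : ‖W‖ ≤ R2 := by
    rw [← pW]
    exact norm_up_le ψ hR2pos.le fun z => hpb _ (hre1 z z.2).1
  have hWn' : ‖W'‖ ≤ R2 := by
    rw [← pW']
    exact norm_up_le ψ' hR2pos.le fun z => hpb _ (hre1' z z.2).1
  -- scale
  set R0 : ℝ := R1 + R2 with hR0
  have hR0pos : 0 < R0 := by positivity
  have hR01 : 1 ≤ R0 := hb1
  have hdb : ∀ z, |d z| ≤ R0 := by
    intro z
    have h1 := (hre1 z z.2).2
    have h2 := hpb _ (hre1 z z.2).1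
    exact (abs_sub _ _).trans (add_le_add h1 h2)
  have hdb' : ∀ z, |d' z| ≤ R0 := by
    intro z
    have h1 := (hre1' z z.2).2
    have h2 := hpb _ (hre1' z z.2).1
    exact (abs_sub _ _).trans (add_le_add h1 h2)
  have hinv : |R0⁻¹| = R0⁻¹ := abs_of_pos (inv_pos.2 hR0pos)
  have hd1 : ∀ z, |(R0⁻¹ • d) z| ≤ 1 := by
    intro z
    rw [ContinuousMap.smul_apply, smul_eq_mul, abs_mul, hinv, inv_mul_le_iff₀ hR0pos, mul_one]
    exact hdb z
  have hd1' : ∀ z, |(R0⁻¹ • d') z| ≤ 1 := by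
    intro z
    rw [ContinuousMap.smul_apply, smul_eq_mul, abs_mul, hinv, inv_mul_le_iff₀ hR0pos, mul_one]
    exact hdb' z
  -- nuclear differences
  obtain ⟨τW, hnW⟩ := hp3 H X X' hX hX' (by rw [hR1]; linarith) (by rw [hR1]; linarith) M τX hNX
  have hnV := hNY.add (hnW.smul (-1))
  have eV : (Y' - Y) + (-1 : ℂ) • (ev X' p - ev X p) = ψ' (up d') - ψ (up d) := by
    rw [pd, pd']
    module
  rw [eV] at hnV
  set τV := τY + (-1 : ℂ) • τW with hτV
  have hSX' : Ser (X - X') M := by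
    have := Ser.neg hSX
    rwa [neg_sub] at this
  have hp1' : 0 ≤ (L : ℝ) + η := by positivity
  have hτW : ∀ r : C(spectrum ℂ (NN X Y), ℝ), ‖τW (ψ (up r))‖ ≤ C * (L + η) * M * ‖r‖ := by
    intro r
    have hcomm : X * ψ (up r) = ψ (up r) * X := by
      have h0 : ψ (up x) * ψ (up r) = ψ (up r) * ψ (up x) := by
        rw [← map_mul, ← map_mul, mul_comm]
      rwa [px] at h0
    obtain ⟨N, τ, h1, h2⟩ := hC H X X' (ψ (up r)) hX (sa_up ψ r) hcomm M hSX p R1 (L + η)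
      (by rw [hR1]; linarith) hp1' hp1
    rw [uniq bas hnW h1]
    refine h2.trans ?_
    have h3 : ‖ψ (up r)‖ ≤ ‖r‖ := norm_up_le ψ (norm_nonneg _) fun z => r.norm_coe_le_norm z
    calc C * (L + η) * ‖ψ (up r)‖ * M ≤ C * (L + η) * ‖r‖ * M := by gcongr
      _ = _ := by ring
  have hτW' : ∀ r : C(spectrum ℂ (NN X' Y'), ℝ), ‖τW (ψ' (up r))‖ ≤ C * (L + η) * M * ‖r‖ := by
    intro r
    have hcomm : X' * ψ' (up r) = ψ' (up r) * X' := by
      have h0 : ψ' (up x') * ψ' (up r) = ψ' (up r) * ψ' (up x') := by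
        rw [← map_mul, ← map_mul, mul_comm]
      rwa [px'] at h0
    obtain ⟨N, τ, h1, h2⟩ := hC H X' X (ψ' (up r)) hX' (sa_up ψ' r) hcomm M hSX' p R1 (L + η)
      (by rw [hR1]; linarith) hp1' hp1
    have h4 := h1.smul (-1)
    have e1 : (-1 : ℂ) • (ev X p - ev X' p) = ev X' p - ev X p := by module
    rw [e1] at h4
    rw [uniq bas hnW h4, LinearMap.smul_apply, norm_smul, norm_neg, norm_one, one_mul]
    refine h2.trans ?_
    have h3 : ‖ψ' (up r)‖ ≤ ‖r‖ := norm_up_le ψ' (norm_nonneg _) fun z => r.norm_coe_le_norm z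
    calc C * (L + η) * ‖ψ' (up r)‖ * M ≤ C * (L + η) * ‖r‖ * M := by gcongr
      _ = _ := by ring
  set c : ℝ := M + C * (L + η) * M with hcdef
  have hc0 : 0 ≤ c := by positivity
  have hcV : ∀ r : C(spectrum ℂ (NN X Y), ℝ), ‖τV (ψ (up r))‖ ≤ c * ‖r‖ := by
    intro r
    rw [hτV, LinearMap.add_apply, LinearMap.smul_apply]
    refine (norm_add_le _ _).trans ?_
    rw [norm_smul, norm_neg, norm_one, one_mul, hcdef, add_mul]
    refine add_le_add ((hNY.bd _).trans ?_) (hτW r)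
    gcongr
    exact norm_up_le ψ (norm_nonneg _) fun z => r.norm_coe_le_norm z
  have hcV' : ∀ r : C(spectrum ℂ (NN X' Y'), ℝ), ‖τV (ψ' (up r))‖ ≤ c * ‖r‖ := by
    intro r
    rw [hτV, LinearMap.add_apply, LinearMap.smul_apply]
    refine (norm_add_le _ _).trans ?_
    rw [norm_smul, norm_neg, norm_one, one_mul, hcdef, add_mul]
    refine add_le_add ((hNY.bd _).trans ?_) (hτW' r)
    gcongr
    exact norm_up_le ψ' (norm_nonneg _) fun z => r.norm_coe_le_norm z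
  -- k' - k
  set Θ : ℝ := Cf f b * ((1 + Λ) * M) with hΘ
  have hΘ0 : 0 ≤ Θ := by positivity
  have hN3 : ∃ τ3, Nuc (k' - k) Θ τ3 := by
    have hNn : 0 ≤ (1 + Λ) * M := by positivity
    have hmon : ∀ {T : H →L[ℂ] H} {N : ℝ} {τ : (H →L[ℂ] H) →ₗ[ℂ] ℂ}, Nuc T N τ →
        N ≤ (1 + Λ) * M → Nuc T ((1 : ℕ) * b ^ 1 * ((1 + Λ) * M)) τ := by
      intro T N τ h hle
      refine h.mono (hle.trans ?_)
      rw [Nat.cast_one, one_mul, pow_one]
      exact le_mul_of_one_le_left hNn hb1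
    refine kk_nuc f hb1 hNn ⟨?_, ?_, τX, hmon hNX ?_⟩ ⟨?_, ?_, τY, hmon hNY ?_⟩
      ⟨?_, ?_, τW, hmon hnW ?_⟩
    · rw [pow_one]; linarith
    · rw [pow_one]; linarith
    · nlinarith
    · rw [pow_one]; linarith
    · rw [pow_one]; linarith
    · nlinarith
    · rw [pow_one]; linarith
    · rw [pow_one]; linarith
    · nlinarith
  obtain ⟨τ3, hn3⟩ := hN3
  -- width
  set ε₀ : ℝ := η / (1 + Λ) with hε₀
  have hε₀pos : 0 < ε₀ := by positivity
  have hε₀η : ε₀ * (1 + Λ) = η := by rw [hε₀]; field_simp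
  have hε₀1 : ε₀ ≤ η := by
    rw [← hε₀η]
    nlinarith
  set ε₂ : ℝ := ε₀ + ε with hε₂
  have hε₂pos : 0 < ε₂ := by positivity
  have hε₂Λ : ε₂ * (1 + Λ) ≤ 3 * η := by
    rw [hε₂, add_mul, hε₀η]
    linarith
  have hε₂1 : 4 * ε₂ ≤ R0 := by linarith
  refine ⟨ε₀, hε₀pos, fun q hq hq1 hq2 => ?_⟩
  set r := rs (spectrum ℂ (NN X Y)) q hq with hr
  have hrS : cfc (fun z => (q z : ℂ)) (X + Complex.I • Y) = ψ (up r) := (pq q hq).symm
  rw [hrS]
  set S := ψ (up r) with hS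
  have hr1 : ∀ z, |r z| ≤ 1 := fun z => hq1 _
  have hS1 : ‖S‖ ≤ 1 := norm_up_le ψ zero_le_one hr1
  have hdr : ∀ z, r z ≠ 0 → |d z| ≤ ε₂ := by
    intro z hz
    have h1 : |(z : ℂ).im - φ (z : ℂ).re| ≤ ε₀ := by
      by_contra hcon
      exact hz (hq2 _ (not_le.1 hcon))
    have h2 := hp2 _ (hre1 z z.2).1
    have h3 : d z = ((z : ℂ).im - φ (z : ℂ).re) - (p.eval (z : ℂ).re - φ (z : ℂ).re) := by
      change (z : ℂ).im - p.eval (z : ℂ).re = _
      ring
    rw [h3]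
    exact (abs_sub _ _).trans (add_le_add h1 h2)
  -- m
  set m : ℕ := ⌊R0 / (4 * ε₂)⌋₊ with hm
  have hx1 : 1 ≤ R0 / (4 * ε₂) := by rw [le_div_iff₀ (by positivity)]; linarith
  have hm1 : 1 ≤ m := Nat.le_floor (by simpa using hx1)
  have hm0 : (0 : ℝ) < m := by exact_mod_cast hm1
  have hmle : (m : ℝ) ≤ R0 / (4 * ε₂) := Nat.floor_le (by positivity)
  have hmge : R0 / (4 * ε₂) ≤ 2 * m := by
    have h1 := Nat.lt_floor_add_one (R0 / (4 * ε₂))
    have h2 : (1 : ℝ) ≤ m := by exact_mod_cast hm1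
    rw [← hm] at h1
    linarith
  have hmR : R0 / m ≤ 8 * ε₂ := by
    rw [div_le_iff₀ (by positivity)] at hmge
    rw [div_le_iff₀ hm0]
    linarith
  have hts := hTS H ι bas _ _ ψ ψ' (R0⁻¹ • d) (R0⁻¹ • d') hd1 hd1' (R0⁻¹ * (M + ‖(-1 : ℂ)‖ * (Λ * M)))
    ((R0⁻¹ : ℂ) • τV) (by
      have h1 := hnV.smul (R0⁻¹ : ℂ)
      have h2 : ‖((R0 : ℂ))⁻¹‖ = R0⁻¹ := by
        rw [norm_inv, Complex.norm_real, Real.norm_eq_abs, abs_of_pos hR0pos]
      rw [h2] at h1
      rw [up_smul, up_smul, map_smul, map_smul, ← smul_sub]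
      push_cast
      exact h1) (R0⁻¹ * c) (by positivity)
    (fun s => by
      rw [LinearMap.smul_apply, norm_smul, norm_inv, Complex.norm_real, Real.norm_eq_abs,
        abs_of_pos hR0pos, mul_assoc]
      have := hcV s
      gcongr)
    (fun s => by
      rw [LinearMap.smul_apply, norm_smul, norm_inv, Complex.norm_real, Real.norm_eq_abs,
        abs_of_pos hR0pos, mul_assoc]
      have := hcV' s
      gcongr) κ κ' K Θ τ3 hκb hκb' K.2 (by rw [pk, pk']; exact hn3) m hm1 r hr1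
    (fun z hz => by
      rw [ContinuousMap.smul_apply, smul_eq_mul, abs_mul, hinv]
      have h1 := hdr z hz
      calc (m : ℝ) * (R0⁻¹ * |d z|) ≤ R0 / (4 * ε₂) * (R0⁻¹ * ε₂) := by gcongr
        _ = 1 / 4 := by field_simp)
  rw [pk', LinearMap.smul_apply, norm_smul, norm_inv, Complex.norm_real, Real.norm_eq_abs,
    abs_of_pos hR0pos, inv_mul_le_iff₀ hR0pos] at hts
  have hts' : ‖τV (k' * S)‖ ≤ 94 * c * K + 48 * ε₂ * Θ := by
    refine hts.trans ?_
    have h1 : R0 * (94 * (R0⁻¹ * c) * K + 6 * Θ / m) = 94 * c * K + 6 * Θ * (R0 / m) := by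
      field_simp
    rw [h1]
    have h2 : 6 * Θ * (R0 / m) ≤ 6 * Θ * (8 * ε₂) := by gcongr
    linarith
  -- T1
  have hcommS : X * S = S * X := by
    have h0 : ψ (up x) * ψ (up r) = ψ (up r) * ψ (up x) := by
      rw [← map_mul, ← map_mul, mul_comm]
    rwa [px] at h0
  obtain ⟨N1, τ1, hn1, ht1⟩ := hC H X X' S hX (sa_up ψ r) hcommS M hSX (gg f p)
    (R1 - 1) (K * (1 + (L + η))) (by rw [hR1]; linarith) (by positivity) (fun t ht =>
      gg_deriv f p (by positivity) hf hp1 hpb (by linarith) (by linarith))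
  rw [ev_gg, ev_gg] at hn1
  -- the identity
  have hcomXY' : Commute X' Y' := hc'
  have hcomXY : Commute X Y := hc
  have hcomXW' : Commute X' W' := (ev_comm (Commute.refl X') p).symm
  have hcomXW : Commute X W := (ev_comm (Commute.refl X) p).symm
  have hcomYW' : Commute Y' W' := (ev_comm hcomXY' p).symm
  have hcomYW : Commute Y W := (ev_comm hcomXY p).symm
  have hid : (∑ m ∈ f.support, ((f.coeff m : ℝ) : ℂ) •
      (X' ^ (m 0) * Y' ^ (m 1) - X ^ (m 0) * Y ^ (m 1))) =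
      (ff f X' W' - ff f X W) + 1 * (ψ' (up d') - ψ (up d)) * k' +
        (Y - W) * (k' - k) * 1 := by
    have h1 : (∑ m ∈ f.support, ((f.coeff m : ℝ) : ℂ) •
      (X' ^ (m 0) * Y' ^ (m 1) - X ^ (m 0) * Y ^ (m 1))) = ff f X' Y' - ff f X Y := by
      unfold ff
      rw [← Finset.sum_sub_distrib]
      exact Finset.sum_congr rfl fun m _ => smul_sub _ _ _
    rw [h1, ff_eq f hcomXY' hcomXW' hcomYW', ff_eq f hcomXY hcomXW hcomYW, ← hk', ← hk, pd, pd']
    noncomm_ring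
  have htot := (hn1.add (hnV.lr 1 k')).add (hn3.lr (Y - W) 1)
  rw [← hid] at htot
  refine ⟨_, _, htot, ?_⟩
  rw [LinearMap.add_apply, LinearMap.add_apply, lrF_apply, lrF_apply, mul_one, one_mul]
  have b1 : ‖τ1 S‖ ≤ C * (K * (1 + (L + η))) * 1 * M := ht1.trans (by gcongr)
  have b3 : ‖τ3 (S * (Y - W))‖ ≤ Θ * ε₂ := by
    refine (hn3.bd _).trans ?_
    gcongr
    rw [← pd, hS, ← map_mul, ← up_mul]
    refine norm_up_le ψ hε₂pos.le fun z => ?_
    rw [ContinuousMap.mul_apply, abs_mul]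
    by_cases hz : r z = 0
    · rw [hz, abs_zero, zero_mul]; exact hε₂pos.le
    · calc |r z| * |d z| ≤ 1 * ε₂ := by
            gcongr
            · exact hr1 z
            · exact hdr z hz
        _ = ε₂ := one_mul _
  refine (norm_add_le _ _).trans ((add_le_add ((norm_add_le _ _).trans (add_le_add b1 hts'))
    b3).trans ?_)
  have f1 : 49 * (Θ * ε₂) ≤ 147 * Cf f b * M * η := by
    calc 49 * (Θ * ε₂) = 49 * (Cf f b * M) * (ε₂ * (1 + Λ)) := by rw [hΘ]; ring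
      _ ≤ 49 * (Cf f b * M) * (3 * η) := by gcongr
      _ = _ := by ring
  have f2 : C * (K * (1 + (L + η))) * 1 * M + (94 * c * K) + 147 * Cf f b * M * η + η ≤
      (95 * C * L + C + 94) * K * M + η * Q := by
    rw [hQ, hcdef]
    apply le_of_eq
    ring
  have f3 : (95 * C * (L : ℝ) + C + 94) * K * M ≤ (95 * C + 94) * (1 + L) * K * M := by
    have hL : (0 : ℝ) ≤ L := L.2
    have : 95 * C * (L : ℝ) + C + 94 ≤ (95 * C + 94) * (1 + L) := by nlinarith
    gcongr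
  linarith

end Pool.LG
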