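import Pool.Agent.Work.LipGraph.Union.Interface

/-!
# Block UP of Theorem GraphUnions (helper5)
-/

open Polynomial

namespace Pool.LG

namespace UPAux

/-- every real polynomial has a primitive which vanishes at `0` -/
theorem prim (p : ℝ[X]) : ∃ P : ℝ[X], derivative P = p ∧ P.eval 0 = 0 := by
  induction p using Polynomial.induction_on' with
  | add p q hp hq =>
    obtain ⟨P, hP, hP0⟩ := hp
    obtain ⟨Q, hQ, hQ0⟩ := hq
    exact ⟨P + Q, by simp [hP, hQ], by simp [hP0, hQ0]⟩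
  | monomial n a =>
    refine ⟨monomial (n + 1) (a / (n + 1)), ?_, ?_⟩
    · rw [derivative_monomial]
      congr 1
      push_cast
      field_simp
    · simp

/-- comparison with a primitive of the derivative bound -/
theorem cmp (P : ℝ[X]) (g : ℝ → ℝ) (g' : ℝ → ℝ) (B : ℝ)
    (hg : ∀ t, HasDerivAt g (g' t) t) (hP0 : P.eval 0 = 0) (hg0 : g 0 = 0)
    (hB : ∀ t, |g t| ≤ B)
    (h : ∀ t : ℝ, |t| ≤ 1 → 0 ≤ P.derivative.eval t ∧ P.derivative.eval t ≤ g' t) :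
    ∀ t : ℝ, |t| ≤ 1 → |P.eval t| ≤ B := by
  have hI : Convex ℝ (Set.Icc (-1 : ℝ) 1) := convex_Icc _ _
  have hmonoP : MonotoneOn (fun t => P.eval t) (Set.Icc (-1 : ℝ) 1) := by
    apply monotoneOn_of_deriv_nonneg hI P.continuous.continuousOn
      P.differentiable.differentiableOn
    intro t ht
    rw [interior_Icc] at ht
    rw [Polynomial.deriv]
    exact (h t (abs_le.2 ⟨ht.1.le, ht.2.le⟩)).1
  have hmonoG : MonotoneOn (fun t => g t - P.eval t) (Set.Icc (-1 : ℝ) 1) := by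
    have hd : ∀ t, HasDerivAt (fun t => g t - P.eval t) (g' t - P.derivative.eval t) t :=
      fun t => (hg t).sub (P.hasDerivAt t)
    apply monotoneOn_of_deriv_nonneg hI
    · exact fun t _ => (hd t).continuousAt.continuousWithinAt
    · exact fun t _ => (hd t).differentiableAt.differentiableWithinAt
    · intro t ht
      rw [interior_Icc] at ht
      rw [(hd t).deriv]
      have := (h t (abs_le.2 ⟨ht.1.le, ht.2.le⟩)).2
      linarith
  intro t ht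
  have ht' := abs_le.1 ht
  have h0 : (0 : ℝ) ∈ Set.Icc (-1 : ℝ) 1 := by constructor <;> norm_num
  have h1 : t ∈ Set.Icc (-1 : ℝ) 1 := ⟨ht'.1, ht'.2⟩
  rcases le_total 0 t with h2 | h2
  · have a1 := hmonoP h0 h1 h2
    have a2 := hmonoG h0 h1 h2
    simp only [hP0, hg0] at a1 a2
    have a3 := (abs_le.1 (hB t)).2
    rw [abs_le]
    constructor <;> linarith
  · have a1 := hmonoP h1 h0 h2
    have a2 := hmonoG h1 h0 h2
    simp only [hP0, hg0] at a1 a2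
    have a3 := (abs_le.1 (hB t)).1
    rw [abs_le]
    constructor <;> linarith

theorem key (m : ℕ) (t : ℝ) (ht : |t| ≤ 1) :
    (1 + (m : ℝ) ^ 2 * t ^ 2) * (1 - t ^ 2) ^ (m ^ 2) ≤ 1 := by
  have h1 : 0 ≤ 1 - t ^ 2 := by
    have := abs_le.1 ht
    nlinarith
  have h2 : 1 - t ^ 2 ≤ Real.exp (-t ^ 2) := by
    have := Real.add_one_le_exp (-t ^ 2)
    linarith
  have h3 : 1 + (m : ℝ) ^ 2 * t ^ 2 ≤ Real.exp ((m : ℝ) ^ 2 * t ^ 2) := by
    have := Real.add_one_le_exp ((m : ℝ) ^ 2 * t ^ 2)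
    linarith
  calc (1 + (m : ℝ) ^ 2 * t ^ 2) * (1 - t ^ 2) ^ (m ^ 2)
      ≤ Real.exp ((m : ℝ) ^ 2 * t ^ 2) * Real.exp (-t ^ 2) ^ (m ^ 2) := by
        apply mul_le_mul h3 (pow_le_pow_left₀ h1 h2 _) (pow_nonneg h1 _) (Real.exp_pos _).le
    _ = 1 := by
        rw [← Real.exp_nat_mul, ← Real.exp_add]
        have : (m : ℝ) ^ 2 * t ^ 2 + ((m ^ 2 : ℕ) : ℝ) * -t ^ 2 = 0 := by push_cast; ring
        rw [this, Real.exp_zero]

end UPAux

open UPAux in
theorem stmt_UP : Stmt_UP := by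
  intro m hm
  have hm1 : (1 : ℝ) ≤ m := by exact_mod_cast hm
  have hm0 : (0 : ℝ) < m := by linarith
  obtain ⟨θ, hθ, hθ0⟩ := prim ((1 - X ^ 2) ^ (2 * m ^ 2 + 1))
  obtain ⟨j1, hj1, hj10⟩ := prim (C (3 * (m : ℝ)) * (1 + C ((m : ℝ) ^ 2) * X ^ 2) *
    (1 - X ^ 2) ^ (2 * m ^ 2))
  obtain ⟨j, hj, -⟩ := prim j1
  have e1 : ∀ t : ℝ, θ.derivative.eval t = (1 - t ^ 2) ^ (2 * m ^ 2 + 1) := by
    intro t; rw [hθ]; simp
  have e2 : ∀ t : ℝ, θ.derivative.derivative.eval t =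
      (2 * (m : ℝ) ^ 2 + 1) * (1 - t ^ 2) ^ (2 * m ^ 2) * (-(2 * t)) := by
    intro t
    rw [hθ, derivative_pow]
    simp
    left; left; norm_num
  have e3 : ∀ t : ℝ, j.derivative.derivative.eval t =
      3 * m * (1 + (m : ℝ) ^ 2 * t ^ 2) * (1 - t ^ 2) ^ (2 * m ^ 2) := by
    intro t; rw [hj, hj1]; simp
  have e4 : ∀ t : ℝ, j1.derivative.eval t =
      3 * m * (1 + (m : ℝ) ^ 2 * t ^ 2) * (1 - t ^ 2) ^ (2 * m ^ 2) := by
    intro t; rw [hj1]; simp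
  -- elementary bounds
  have hn : ∀ t : ℝ, |t| ≤ 1 → 0 ≤ 1 - t ^ 2 ∧ 1 - t ^ 2 ≤ 1 := by
    intro t ht
    have := abs_le.1 ht
    constructor <;> nlinarith
  have hk : ∀ t : ℝ, |t| ≤ 1 → (1 - t ^ 2) ^ (m ^ 2) ≤ 1 / (1 + (m * t) ^ 2) := by
    intro t ht
    rw [le_div_iff₀ (by positivity)]
    have := key m t ht
    nlinarith [this]
  have hatan : ∀ t : ℝ, HasDerivAt (fun t => Real.arctan (m * t)) (1 / (1 + (m * t) ^ 2) * m) t := by
    intro t
    have h1 := Real.hasDerivAt_arctan ((m : ℝ) * t)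
    have h2 : HasDerivAt (fun t : ℝ => (m : ℝ) * t) m t := by
      simpa using (hasDerivAt_id t).const_mul (m : ℝ)
    exact h1.comp t h2
  have hb : ∀ x : ℝ, |Real.arctan x| ≤ 8 / 5 := by
    intro x
    have h1 := Real.arctan_lt_pi_div_two x
    have h2 := Real.neg_pi_div_two_lt_arctan x
    have h3 := Real.pi_lt_d2
    rw [abs_le]
    constructor <;> linarith
  refine ⟨θ, j, ?_, ?_, ?_, ?_, ?_⟩
  · apply cmp θ (fun t => Real.arctan (m * t) / m) (fun t => 1 / (1 + (m * t) ^ 2) * m / m) (2 / m)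
    · exact fun t => (hatan t).div_const _
    · exact hθ0
    · simp
    · intro t
      rw [abs_div, abs_of_pos hm0]
      apply div_le_div_of_nonneg_right _ hm0.le
      linarith [hb (m * t)]
    · intro t ht
      rw [e1]
      obtain ⟨h1, h2⟩ := hn t ht
      refine ⟨pow_nonneg h1 _, ?_⟩
      rw [mul_div_assoc, div_self hm0.ne', mul_one]
      refine le_trans ?_ (hk t ht)
      apply pow_le_pow_of_le_one h1 h2
      omega
  · intro t ht
    rw [e1]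
    obtain ⟨h1, h2⟩ := hn t ht
    rw [abs_of_nonneg (pow_nonneg h1 _)]
    exact pow_le_one₀ h1 h2
  · rw [hj]
    apply cmp j1 (fun t => 3 * Real.arctan (m * t)) (fun t => 3 * (1 / (1 + (m * t) ^ 2) * m)) 5
    · exact fun t => (hatan t).const_mul _
    · exact hj10
    · simp
    · intro t
      rw [abs_mul, abs_of_pos (by norm_num : (0 : ℝ) < 3)]
      linarith [hb (m * t)]
    · intro t ht
      rw [e4]
      obtain ⟨h1, h2⟩ := hn t ht
      refine ⟨by positivity, ?_⟩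
      have h3 := key m t ht
      have h4 := hk t ht
      have h5 : (1 - t ^ 2) ^ (2 * m ^ 2) = (1 - t ^ 2) ^ (m ^ 2) * (1 - t ^ 2) ^ (m ^ 2) := by
        rw [← pow_add]; congr 1; ring
      have h6 : 0 ≤ (1 - t ^ 2) ^ (m ^ 2) := pow_nonneg h1 _
      calc 3 * m * (1 + (m : ℝ) ^ 2 * t ^ 2) * (1 - t ^ 2) ^ (2 * m ^ 2)
          = 3 * m * (((1 + (m : ℝ) ^ 2 * t ^ 2) * (1 - t ^ 2) ^ (m ^ 2)) *
              (1 - t ^ 2) ^ (m ^ 2)) := by rw [h5]; ring
        _ ≤ 3 * m * (1 * (1 - t ^ 2) ^ (m ^ 2)) := by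
              apply mul_le_mul_of_nonneg_left _ (by positivity)
              exact mul_le_mul_of_nonneg_right h3 h6
        _ ≤ 3 * m * (1 * (1 / (1 + (m * t) ^ 2))) := by
              apply mul_le_mul_of_nonneg_left _ (by positivity)
              linarith
        _ = 3 * (1 / (1 + (m * t) ^ 2) * m) := by ring
  · intro t ht
    rw [e2, e3]
    obtain ⟨h1, h2⟩ := hn t ht
    have h6 : 0 ≤ (1 - t ^ 2) ^ (2 * m ^ 2) := pow_nonneg h1 _
    have h7 : |(2 * (m : ℝ) ^ 2 + 1) * (1 - t ^ 2) ^ (2 * m ^ 2) * (-(2 * t))| =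
        (2 * (2 * (m : ℝ) ^ 2 + 1) * |t|) * (1 - t ^ 2) ^ (2 * m ^ 2) := by
      rw [abs_mul, abs_mul, abs_neg, abs_mul, abs_of_nonneg h6, abs_of_pos (by positivity :
        (0 : ℝ) < 2 * (m : ℝ) ^ 2 + 1), abs_of_pos (by norm_num : (0 : ℝ) < 2)]
      ring
    rw [h7]
    apply mul_le_mul_of_nonneg_right _ h6
    have h8 : 0 ≤ |t| := abs_nonneg t
    have h9 : |t| ^ 2 = t ^ 2 := sq_abs t
    have h10 : 2 * (m : ℝ) * |t| ≤ 1 + (m : ℝ) ^ 2 * t ^ 2 := by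
      rw [← h9]
      nlinarith [sq_nonneg ((m : ℝ) * |t| - 1)]
    have h11 : 2 * (m : ℝ) ^ 2 + 1 ≤ 3 * (m : ℝ) ^ 2 := by nlinarith
    calc 2 * (2 * (m : ℝ) ^ 2 + 1) * |t| ≤ 2 * (3 * (m : ℝ) ^ 2) * |t| := by
          apply mul_le_mul_of_nonneg_right _ h8
          linarith
      _ = 3 * m * (2 * (m : ℝ) * |t|) := by ring
      _ ≤ 3 * m * (1 + (m : ℝ) ^ 2 * t ^ 2) := by
          apply mul_le_mul_of_nonneg_left h10 (by positivity)
  · intro t ht
    have ht1 : |t| ≤ 1 / 4 := by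
      have h8 : 0 ≤ |t| := abs_nonneg t
      nlinarith
    obtain ⟨h1, h2⟩ := hn t (by linarith)
    rw [e1]
    have h3 : (1 - t ^ 2) ^ (2 * m ^ 2 + 1) ≤ 1 := pow_le_one₀ h1 h2
    have h4 : 1 + ((2 * m ^ 2 + 1 : ℕ) : ℝ) * (-t ^ 2) ≤ (1 + -t ^ 2) ^ (2 * m ^ 2 + 1) :=
      one_add_mul_le_pow (by nlinarith) _
    have h5 : (1 + -t ^ 2) = 1 - t ^ 2 := by ring
    rw [h5] at h4
    push_cast at h4
    have h9 : |t| ^ 2 = t ^ 2 := sq_abs t
    have h10 : (m : ℝ) ^ 2 * t ^ 2 ≤ 1 / 16 := by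
      rw [← h9, ← mul_pow]
      have h8 : 0 ≤ (m : ℝ) * |t| := by positivity
      nlinarith
    have h11 : t ^ 2 ≤ (m : ℝ) ^ 2 * t ^ 2 := by
      have : 0 ≤ t ^ 2 := sq_nonneg t
      nlinarith [mul_nonneg (by nlinarith : (0 : ℝ) ≤ (m : ℝ) ^ 2 - 1) this]
    rw [abs_of_nonneg (by linarith)]
    nlinarith

end Pool.LG
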